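import Mathlib

/-!
# The function `F(z;q) = ∑ q^(k(k-1)/2) z^k / k!`: basic properties
-/

namespace SokalF

open Filter Topology

/-- The entire function of the problem. -/
noncomputable def F (q z : ℂ) : ℂ :=
  ∑' k : ℕ, q ^ (k * (k - 1) / 2) * z ^ k / (Nat.factorial k : ℂ)

theorem norm_term_le {q : ℂ} (hq : ‖q‖ ≤ 1) (z : ℂ) (k : ℕ) :
    ‖q ^ (k * (k - 1) / 2) * z ^ k / (Nat.factorial k : ℂ)‖ ≤ ‖z‖ ^ k / (Nat.factorial k : ℝ) := by
  rw [norm_div, norm_mul, norm_pow, norm_pow, Complex.norm_natCast]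
  gcongr
  exact mul_le_of_le_one_left (by positivity) (pow_le_one₀ (norm_nonneg _) hq)

theorem summable_term {q : ℂ} (hq : ‖q‖ ≤ 1) (z : ℂ) :
    Summable fun k : ℕ => q ^ (k * (k - 1) / 2) * z ^ k / (Nat.factorial k : ℂ) :=
  Summable.of_norm_bounded (Real.summable_pow_div_factorial ‖z‖) (norm_term_le hq z)

theorem F_zero (q : ℂ) : F q 0 = 1 := by
  unfold F
  rw [tsum_eq_single 0]
  · simp
  · intro k hk
    simp [hk]

theorem norm_dterm_le {q z : ℂ} (hq : ‖q‖ ≤ 1) {R : ℝ} (hz : ‖z‖ ≤ R) (k : ℕ) :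
    ‖q ^ (k * (k - 1) / 2) * (k * z ^ (k - 1)) / (Nat.factorial k : ℂ)‖ ≤
      (k : ℝ) * R ^ (k - 1) / (Nat.factorial k : ℝ) := by
  rw [norm_div, norm_mul, norm_mul, norm_pow, norm_pow, Complex.norm_natCast,
    Complex.norm_natCast]
  refine div_le_div_of_nonneg_right ?_ (by positivity)
  calc ‖q‖ ^ (k * (k - 1) / 2) * ((k : ℝ) * ‖z‖ ^ (k - 1))
      ≤ 1 * ((k : ℝ) * R ^ (k - 1)) := by
        gcongr
        exact pow_le_one₀ (norm_nonneg _) hq
    _ = (k : ℝ) * R ^ (k - 1) := one_mul _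

theorem hasDerivAt_F {q : ℂ} (hq : ‖q‖ ≤ 1) (z : ℂ) : HasDerivAt (F q) (F q (q * z)) z := by
  set R : ℝ := ‖z‖ + 1 with hR
  have hR0 : 0 ≤ R := by positivity
  have hz : z ∈ Metric.ball (0 : ℂ) R := by
    rw [mem_ball_zero_iff, hR]; linarith
  have hsum : Summable fun k : ℕ => (k : ℝ) * R ^ (k - 1) / (Nat.factorial k : ℝ) := by
    rw [← summable_nat_add_iff 1]
    refine (Real.summable_pow_div_factorial R).congr fun k => ?_
    rw [Nat.add_sub_cancel, Nat.factorial_succ]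
    push_cast
    field_simp
  have h1 := hasDerivAt_tsum_of_isPreconnected (𝕜 := ℂ) (F := ℂ)
    (g := fun (k : ℕ) (w : ℂ) => q ^ (k * (k - 1) / 2) * w ^ k / (Nat.factorial k : ℂ))
    (g' := fun (k : ℕ) (w : ℂ) => q ^ (k * (k - 1) / 2) * (k * w ^ (k - 1)) /
      (Nat.factorial k : ℂ))
    (y₀ := z) (y := z) hsum Metric.isOpen_ball (convex_ball (0 : ℂ) R).isPreconnected
    (by
      intro k w _
      exact ((hasDerivAt_pow k w).const_mul _).div_const _)
    (by
      intro k w hw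
      rw [mem_ball_zero_iff] at hw
      exact norm_dterm_le hq hw.le k)
    hz (summable_term hq z) hz
  have h2 : (∑' k : ℕ, q ^ (k * (k - 1) / 2) * (k * z ^ (k - 1)) / (Nat.factorial k : ℂ)) =
      F q (q * z) := by
    have hs : Summable fun k : ℕ => q ^ (k * (k - 1) / 2) * (k * z ^ (k - 1)) /
        (Nat.factorial k : ℂ) := by
      refine Summable.of_norm_bounded hsum fun k => ?_
      exact norm_dterm_le hq (by rw [hR]; linarith) k
    rw [hs.tsum_eq_zero_add]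
    simp only [CharP.cast_eq_zero, zero_mul, mul_zero, zero_div, zero_add]
    unfold F
    refine tsum_congr fun k => ?_
    rw [Nat.triangle_succ, Nat.add_sub_cancel, Nat.factorial_succ, pow_add, mul_pow]
    have h0 : (Nat.factorial k : ℂ) ≠ 0 := by exact_mod_cast Nat.factorial_ne_zero k
    have h3 : ((k : ℂ) + 1) ≠ 0 := by exact_mod_cast Nat.succ_ne_zero k
    push_cast
    field_simp
  rw [← h2]
  exact h1

theorem deriv_F {q : ℂ} (hq : ‖q‖ ≤ 1) (z : ℂ) : deriv (F q) z = F q (q * z) :=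
  (hasDerivAt_F hq z).deriv

theorem continuousOn_F : ContinuousOn (fun p : ℂ × ℂ => F p.1 p.2) {p | ‖p.1‖ ≤ 1} := by
  have key : ∀ R : ℝ, ContinuousOn (fun p : ℂ × ℂ => F p.1 p.2)
      ({p | ‖p.1‖ ≤ 1} ∩ {p | ‖p.2‖ < R}) := by
    intro R
    unfold F
    refine continuousOn_tsum (u := fun k : ℕ => R ^ k / (Nat.factorial k : ℝ)) ?_
      (Real.summable_pow_div_factorial R) ?_
    · intro k
      fun_prop
    · rintro k p ⟨hp1, hp2⟩
      refine (norm_term_le hp1 p.2 k).trans ?_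
      have hp3 : ‖p.2‖ ≤ R := le_of_lt hp2
      gcongr
  intro p hp
  have h1 := key (‖p.2‖ + 1) p ⟨hp, by simp⟩
  refine h1.mono_of_mem_nhdsWithin ?_
  refine Filter.inter_mem self_mem_nhdsWithin ?_
  apply mem_nhdsWithin_of_mem_nhds
  exact (isOpen_lt (continuous_norm.comp continuous_snd) continuous_const).mem_nhds (by simp)

end SokalF
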