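import Pool.Agent.Lib_MP_af4de1.Basic

/-!
# The heat equation behind `F` and the parabolic blow-up at a multiple zero
-/

namespace SokalF

open Filter Topology

/-- The derivatives in `x` of the solution `∑ exp (k x + k ^ 2 τ / 2) / k!` of the heat equation. -/
noncomputable def G (p : ℕ) (x τ : ℂ) : ℂ :=
  ∑' k : ℕ, (k : ℂ) ^ p * Complex.exp (k * x + k ^ 2 * τ / 2) / (Nat.factorial k : ℂ)

theorem summable_bound (p : ℕ) (a : ℝ) :
    Summable fun k : ℕ => (k : ℝ) ^ p * Real.exp (k * a) / (Nat.factorial k : ℝ) := by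
  have h1 : Summable fun k : ℕ =>
      (Nat.factorial p : ℝ) * ((Real.exp (a + 1)) ^ k / (Nat.factorial k : ℝ)) :=
    (Real.summable_pow_div_factorial _).mul_left _
  refine Summable.of_nonneg_of_le (fun k => by positivity) (fun k => ?_) h1
  have h2 := Real.pow_div_factorial_le_exp (k : ℝ) (by positivity) p
  rw [div_le_iff₀ (by positivity)] at h2
  rw [← mul_div_assoc]
  refine div_le_div_of_nonneg_right ?_ (by positivity)
  calc (k : ℝ) ^ p * Real.exp (k * a) ≤ (Real.exp k * (Nat.factorial p : ℝ)) * Real.exp (k * a) :=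
        mul_le_mul_of_nonneg_right h2 (Real.exp_pos _).le
    _ = (Nat.factorial p : ℝ) * (Real.exp (a + 1)) ^ k := by
        rw [← Real.exp_nat_mul, mul_add, Real.exp_add, mul_one]
        ring

theorem norm_exp_le {x τ : ℂ} (hτ : τ.re ≤ 0) (k : ℕ) {a : ℝ} (ha : x.re ≤ a) :
    ‖Complex.exp (k * x + k ^ 2 * τ / 2)‖ ≤ Real.exp (k * a) := by
  rw [Complex.norm_exp, Real.exp_le_exp]
  have h1 : ((k : ℂ) * x + (k : ℂ) ^ 2 * τ / 2).re = k * x.re + (k : ℝ) ^ 2 * τ.re / 2 := by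
    have e1 : ((k : ℂ) ^ 2 * τ / 2).re = (k : ℝ) ^ 2 * τ.re / 2 := by
      have e2 : (k : ℂ) ^ 2 * τ / 2 = (((k : ℝ) ^ 2 / 2 : ℝ) : ℂ) * τ := by
        push_cast; ring
      rw [e2, Complex.re_ofReal_mul]
      ring
    have e3 : ((k : ℂ) * x).re = k * x.re := by
      have e4 : (k : ℂ) * x = ((k : ℝ) : ℂ) * x := by push_cast; ring
      rw [e4, Complex.re_ofReal_mul]
    rw [Complex.add_re, e1, e3]
  rw [h1]
  have h2 : (k : ℝ) ^ 2 * τ.re / 2 ≤ 0 := by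
    have : (k : ℝ) ^ 2 * τ.re ≤ 0 := mul_nonpos_of_nonneg_of_nonpos (by positivity) hτ
    linarith
  have h3 : (k : ℝ) * x.re ≤ k * a := mul_le_mul_of_nonneg_left ha (by positivity)
  linarith

theorem norm_Gterm_le (p : ℕ) {x τ : ℂ} (hτ : τ.re ≤ 0) {a : ℝ} (ha : x.re ≤ a) (k : ℕ) :
    ‖(k : ℂ) ^ p * Complex.exp (k * x + k ^ 2 * τ / 2) / (Nat.factorial k : ℂ)‖ ≤
      (k : ℝ) ^ p * Real.exp (k * a) / (Nat.factorial k : ℝ) := by
  rw [norm_div, norm_mul, norm_pow, Complex.norm_natCast, Complex.norm_natCast]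
  refine div_le_div_of_nonneg_right ?_ (by positivity)
  exact mul_le_mul_of_nonneg_left (norm_exp_le hτ k ha) (by positivity)

theorem summable_G (p : ℕ) {x τ : ℂ} (hτ : τ.re ≤ 0) :
    Summable fun k : ℕ =>
      (k : ℂ) ^ p * Complex.exp (k * x + k ^ 2 * τ / 2) / (Nat.factorial k : ℂ) :=
  Summable.of_norm_bounded (summable_bound p x.re) (norm_Gterm_le p hτ le_rfl)

/-- The bound of `G p` on the half plane `Re x ≤ a`. -/
noncomputable def B (p : ℕ) (a : ℝ) : ℝ :=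
  ∑' k : ℕ, (k : ℝ) ^ p * Real.exp (k * a) / (Nat.factorial k : ℝ)

theorem B_nonneg (p : ℕ) (a : ℝ) : 0 ≤ B p a := tsum_nonneg fun k => by positivity

theorem norm_G_le (p : ℕ) {x τ : ℂ} (hτ : τ.re ≤ 0) {a : ℝ} (ha : x.re ≤ a) :
    ‖G p x τ‖ ≤ B p a :=
  tsum_of_norm_bounded (summable_bound p a).hasSum (norm_Gterm_le p hτ ha)

theorem tri_cast (k : ℕ) : ((k * (k - 1) / 2 : ℕ) : ℂ) = (k : ℂ) * (k - 1) / 2 := by
  rw [← Nat.choose_two_right, Nat.cast_choose_two]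

theorem G_zero_eq (x τ : ℂ) : G 0 x τ = F (Complex.exp τ) (Complex.exp (x + τ / 2)) := by
  unfold G F
  refine tsum_congr fun k => ?_
  rw [pow_zero, one_mul, ← Complex.exp_nat_mul, ← Complex.exp_nat_mul, ← Complex.exp_add,
    tri_cast]
  congr 2
  ring

theorem G_one_eq {x τ : ℂ} (hτ : τ.re ≤ 0) : G 1 x τ = Complex.exp (x + τ / 2) *
    F (Complex.exp τ) (Complex.exp τ * Complex.exp (x + τ / 2)) := by
  unfold G F
  rw [(summable_G 1 hτ).tsum_eq_zero_add, ← tsum_mul_left]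
  simp only [CharP.cast_eq_zero, pow_one, zero_mul, zero_div, zero_add]
  refine tsum_congr fun k => ?_
  rw [mul_pow, ← Complex.exp_nat_mul, ← Complex.exp_nat_mul, ← Complex.exp_nat_mul,
    Nat.factorial_succ, tri_cast]
  have h0 : (Nat.factorial k : ℂ) ≠ 0 := by exact_mod_cast Nat.factorial_ne_zero k
  have h3 : ((k : ℂ) + 1) ≠ 0 := by exact_mod_cast Nat.succ_ne_zero k
  have h4 : Complex.exp (((k + 1 : ℕ) : ℂ) * x + ((k + 1 : ℕ) : ℂ) ^ 2 * τ / 2) =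
      Complex.exp (x + τ / 2) * (Complex.exp ((k : ℂ) * (k - 1) / 2 * τ) *
        (Complex.exp (k * τ) * Complex.exp (k * (x + τ / 2)))) := by
    rw [← Complex.exp_add, ← Complex.exp_add, ← Complex.exp_add]
    congr 1
    push_cast
    ring
  rw [h4]
  push_cast
  field_simp

section path

variable {x τ ξ σ : ℂ} {s : ℝ}

theorem re_path (_hs : 0 ≤ s) (hτ : τ.re ≤ 0) (hτs : (τ + (s : ℂ) ^ 2 * σ).re ≤ 0) {t : ℝ}
    (ht : |t| ≤ s) : (τ + (t : ℂ) ^ 2 * σ).re ≤ 0 := by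
  have e : ∀ u : ℝ, (τ + (u : ℂ) ^ 2 * σ).re = τ.re + u ^ 2 * σ.re := by
    intro u
    rw [Complex.add_re, ← Complex.ofReal_pow, Complex.re_ofReal_mul]
  rw [e] at hτs ⊢
  have h1 : t ^ 2 ≤ s ^ 2 := sq_le_sq' (by linarith [abs_le.1 ht]) (abs_le.1 ht).2
  rcases le_total σ.re 0 with h | h
  · have : t ^ 2 * σ.re ≤ 0 := mul_nonpos_of_nonneg_of_nonpos (by positivity) h
    linarith
  · have : t ^ 2 * σ.re ≤ s ^ 2 * σ.re := mul_le_mul_of_nonneg_right h1 h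
    linarith

theorem re_x_path (hξ : ‖ξ‖ ≤ 1) {t : ℝ} (ht : |t| ≤ 1) : (x + (t : ℂ) * ξ).re ≤ x.re + 1 := by
  rw [Complex.add_re, Complex.re_ofReal_mul]
  have h1 : t * ξ.re ≤ |t| * |ξ.re| := by
    rw [← abs_mul]; exact le_abs_self _
  have h2 : |t| * |ξ.re| ≤ 1 * 1 :=
    mul_le_mul ht ((Complex.abs_re_le_norm ξ).trans hξ) (abs_nonneg _) zero_le_one
  linarith

theorem hasDerivAt_path (p : ℕ) (hξ : ‖ξ‖ ≤ 1) (hσ : ‖σ‖ ≤ 1) (hs : 0 ≤ s) (hs1 : s ≤ 1)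
    (hτ : τ.re ≤ 0) (hτs : (τ + (s : ℂ) ^ 2 * σ).re ≤ 0) {t : ℝ} (ht : t ∈ Set.Ioo (-s) s) :
    HasDerivAt (fun t : ℝ => G p (x + t * ξ) (τ + (t : ℂ) ^ 2 * σ))
      (ξ * G (p + 1) (x + t * ξ) (τ + (t : ℂ) ^ 2 * σ) +
        t * σ * G (p + 2) (x + t * ξ) (τ + (t : ℂ) ^ 2 * σ)) t := by
  have hre : ∀ y ∈ Set.Ioo (-s) s, (τ + (y : ℂ) ^ 2 * σ).re ≤ 0 := fun y hy =>
    re_path hs hτ hτs (abs_le.2 ⟨hy.1.le, hy.2.le⟩)
  have hxr : ∀ y ∈ Set.Ioo (-s) s, (x + (y : ℂ) * ξ).re ≤ x.re + 1 := fun y hy =>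
    re_x_path hξ ((abs_le.2 ⟨hy.1.le, hy.2.le⟩).trans hs1)
  have hterm : ∀ (k : ℕ) (y : ℝ), HasDerivAt
      (fun y : ℝ => (k : ℂ) ^ p * Complex.exp (k * (x + y * ξ) + k ^ 2 * (τ + (y : ℂ) ^ 2 * σ) / 2) /
        (Nat.factorial k : ℂ))
      (ξ * ((k : ℂ) ^ (p + 1) * Complex.exp (k * (x + y * ξ) + k ^ 2 * (τ + (y : ℂ) ^ 2 * σ) / 2) /
        (Nat.factorial k : ℂ)) + y * σ * ((k : ℂ) ^ (p + 2) *
        Complex.exp (k * (x + y * ξ) + k ^ 2 * (τ + (y : ℂ) ^ 2 * σ) / 2) /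
        (Nat.factorial k : ℂ))) y := by
    intro k y
    have h1 : HasDerivAt (fun y : ℝ => (y : ℂ)) 1 y := Complex.ofRealCLM.hasDerivAt
    have h2 : HasDerivAt (fun y : ℝ => (k : ℂ) * (x + y * ξ) + k ^ 2 * (τ + (y : ℂ) ^ 2 * σ) / 2)
        (k * ξ + k ^ 2 * (y * σ)) y := by
      have h3 := ((h1.mul_const ξ).const_add x).const_mul (k : ℂ)
      have h4 := ((((h1.pow 2).mul_const σ).const_add τ).const_mul ((k : ℂ) ^ 2)).div_const 2
      refine (h3.add h4).congr_deriv ?_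
      simp
      ring
    refine ((h2.cexp.const_mul ((k : ℂ) ^ p)).div_const (Nat.factorial k : ℂ)).congr_deriv ?_
    ring
  have hsb : Summable fun k : ℕ =>
      (k : ℝ) ^ (p + 1) * Real.exp (k * (x.re + 1)) / (Nat.factorial k : ℝ) +
      (k : ℝ) ^ (p + 2) * Real.exp (k * (x.re + 1)) / (Nat.factorial k : ℝ) :=
    (summable_bound (p + 1) _).add (summable_bound (p + 2) _)
  have h1 := hasDerivAt_tsum_of_isPreconnected (𝕜 := ℝ) (F := ℂ) hsb isOpen_Ioo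
    isPreconnected_Ioo (fun k y _ => hterm k y)
    (by
      intro k y hy
      refine (norm_add_le _ _).trans (add_le_add ?_ ?_)
      · rw [norm_mul]
        calc ‖ξ‖ * _ ≤ 1 * _ := mul_le_mul hξ (norm_Gterm_le (p + 1) (hre y hy) (hxr y hy) k)
              (norm_nonneg _) zero_le_one
          _ = _ := one_mul _
      · rw [norm_mul]
        have h5 : ‖(y : ℂ) * σ‖ ≤ 1 := by
          rw [norm_mul, Complex.norm_real, Real.norm_eq_abs]
          exact mul_le_one₀ ((abs_le.2 ⟨hy.1.le, hy.2.le⟩).trans hs1) (norm_nonneg _) hσ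
        calc ‖(y : ℂ) * σ‖ * _ ≤ 1 * _ := mul_le_mul h5
              (norm_Gterm_le (p + 2) (hre y hy) (hxr y hy) k) (norm_nonneg _) zero_le_one
          _ = _ := one_mul _)
    ht (summable_G p (hre t ht)) ht
  refine h1.congr_deriv ?_
  rw [Summable.tsum_add ((summable_G (p + 1) (hre t ht)).mul_left _)
    ((summable_G (p + 2) (hre t ht)).mul_left _), tsum_mul_left, tsum_mul_left]
  rfl

theorem continuousOn_path (p : ℕ) (hξ : ‖ξ‖ ≤ 1) (hs : 0 ≤ s) (hs1 : s ≤ 1)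
    (hτ : τ.re ≤ 0) (hτs : (τ + (s : ℂ) ^ 2 * σ).re ≤ 0) :
    ContinuousOn (fun t : ℝ => G p (x + t * ξ) (τ + (t : ℂ) ^ 2 * σ)) (Set.Icc 0 s) := by
  unfold G
  refine continuousOn_tsum (u := fun k : ℕ =>
    (k : ℝ) ^ p * Real.exp (k * (x.re + 1)) / (Nat.factorial k : ℝ)) ?_ (summable_bound p _) ?_
  · intro k
    fun_prop
  · intro k y hy
    have hy' : |y| ≤ s := abs_le.2 ⟨by linarith [hy.1], hy.2⟩
    exact norm_Gterm_le p (re_path hs hτ hτs hy') (re_x_path hξ (hy'.trans hs1)) k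

end path

/-- The heat polynomials. -/
noncomputable def h : ℕ → ℂ → ℂ → ℂ
  | 0, _, _ => 1
  | 1, ξ, _ => ξ
  | (n + 2), ξ, σ => ξ * h (n + 1) ξ σ + (n + 1) * σ * h n ξ σ

/-- The profile of the blow-up. -/
noncomputable def T (ξ σ : ℂ) : ℕ → ℝ → ℂ
  | 0, _ => 0
  | 1, _ => 0
  | (j + 2), t => h j ξ σ * (t : ℂ) ^ j / (Nat.factorial j : ℂ)

theorem hasDerivAt_T (ξ σ : ℂ) (j : ℕ) (t : ℝ) :
    HasDerivAt (T ξ σ (j + 2)) (ξ * T ξ σ (j + 1) t + t * σ * T ξ σ j t) t := by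
  have h1 : HasDerivAt (fun y : ℝ => (y : ℂ)) 1 t := Complex.ofRealCLM.hasDerivAt
  have h2 : HasDerivAt (T ξ σ (j + 2))
      (h j ξ σ * (j * (t : ℂ) ^ (j - 1) * 1) / (Nat.factorial j : ℂ)) t :=
    ((h1.pow j).const_mul (h j ξ σ)).div_const _
  refine h2.congr_deriv ?_
  match j with
  | 0 => simp [T]
  | 1 => simp [T, h]
  | (j + 2) =>
    have h0 : (Nat.factorial j : ℂ) ≠ 0 := by exact_mod_cast Nat.factorial_ne_zero j
    have h3 : ((j : ℂ) + 1) ≠ 0 := by exact_mod_cast Nat.succ_ne_zero j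
    have h4 : ((j : ℂ) + 1 + 1) ≠ 0 := by exact_mod_cast Nat.succ_ne_zero (j + 1)
    simp only [T, h, Nat.factorial_succ, show j + 2 - 1 = j + 1 from rfl]
    push_cast
    field_simp
    ring

theorem path_bound {x τ : ℂ} (hτ : τ.re ≤ 0) {m : ℕ} (hM : ∀ p < m, G p x τ = 0) (j : ℕ) :
    j ≤ m + 2 → ∃ C : ℝ, 0 ≤ C ∧ ∀ ξ σ : ℂ, ‖ξ‖ ≤ 1 → ‖σ‖ ≤ 1 → ∀ s : ℝ, 0 ≤ s → s ≤ 1 →
      (τ + (s : ℂ) ^ 2 * σ).re ≤ 0 → ∀ t ∈ Set.Icc 0 s,
      ‖G (m + 2 - j) (x + t * ξ) (τ + (t : ℂ) ^ 2 * σ) - G m x τ * T ξ σ j t‖ ≤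
        C * t ^ (j - 1) := by
  induction j using Nat.strong_induction_on with
  | _ j ih =>
  intro hj
  match j, ih, hj with
  | 0, _, _ =>
    refine ⟨B (m + 2) (x.re + 1), B_nonneg _ _, ?_⟩
    intro ξ σ hξ hσ s hs hs1 hτs t ht
    have ht' : |t| ≤ s := abs_le.2 ⟨by linarith [ht.1], ht.2⟩
    simp only [T, mul_zero, sub_zero, Nat.sub_zero, zero_tsub, pow_zero, mul_one]
    exact norm_G_le (m + 2) (re_path hs hτ hτs ht') (re_x_path hξ (ht'.trans hs1))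
  | 1, _, _ =>
    refine ⟨B (m + 1) (x.re + 1), B_nonneg _ _, ?_⟩
    intro ξ σ hξ hσ s hs hs1 hτs t ht
    have ht' : |t| ≤ s := abs_le.2 ⟨by linarith [ht.1], ht.2⟩
    simp only [T, mul_zero, sub_zero, tsub_self, pow_zero, mul_one]
    exact norm_G_le (m + 1) (re_path hs hτ hτs ht') (re_x_path hξ (ht'.trans hs1))
  | (j + 2), ih, hj =>
    obtain ⟨C0, hC0, h0⟩ := ih j (by omega) (by omega)
    obtain ⟨C1, hC1, h1⟩ := ih (j + 1) (by omega) (by omega)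
    refine ⟨C1 + C0, by positivity, ?_⟩
    intro ξ σ hξ hσ s hs hs1 hτs t ht
    have e1 : m + 2 - (j + 1) = (m - j) + 1 := by omega
    have e0 : m + 2 - j = (m - j) + 2 := by omega
    have e2 : m + 2 - (j + 2) = m - j := by omega
    rw [e2]
    set f : ℝ → ℂ := fun t => G (m - j) (x + t * ξ) (τ + (t : ℂ) ^ 2 * σ) -
      G m x τ * T ξ σ (j + 2) t with hf
    have hf0 : f 0 = 0 := by
      simp only [hf, T, Complex.ofReal_zero, zero_mul, add_zero, ne_eq, OfNat.ofNat_ne_zero,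
        not_false_eq_true, zero_pow]
      rcases Nat.eq_zero_or_pos j with hj0 | hj0
      · subst hj0
        simp [h]
      · rw [hM (m - j) (by omega), zero_pow (by omega)]
        simp
    have hcont : ContinuousOn f (Set.Icc 0 t) := by
      refine ContinuousOn.sub ?_ ?_
      · exact (continuousOn_path (m - j) hξ hs hs1 hτ hτs).mono
          (Set.Icc_subset_Icc le_rfl ht.2)
      · refine ContinuousOn.mul continuousOn_const ?_
        exact fun y _ => (hasDerivAt_T ξ σ j y).continuousAt.continuousWithinAt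
    have hder : ∀ y ∈ Set.Ico 0 t, HasDerivWithinAt f
        (ξ * (G (m - j + 1) (x + y * ξ) (τ + (y : ℂ) ^ 2 * σ) - G m x τ * T ξ σ (j + 1) y) +
          y * σ * (G (m - j + 2) (x + y * ξ) (τ + (y : ℂ) ^ 2 * σ) - G m x τ * T ξ σ j y))
        (Set.Ici y) y := by
      intro y hy
      have hy' : y ∈ Set.Ioo (-s) s :=
        ⟨by linarith [hy.1, hy.2, ht.2], by linarith [hy.2, ht.2]⟩
      have h5 := (hasDerivAt_path (x := x) (m - j) hξ hσ hs hs1 hτ hτs hy').sub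
        ((hasDerivAt_T ξ σ j y).const_mul (G m x τ))
      refine (h5.congr_deriv ?_).hasDerivWithinAt
      ring
    have hbd : ∀ y ∈ Set.Ico 0 t,
        ‖ξ * (G (m - j + 1) (x + y * ξ) (τ + (y : ℂ) ^ 2 * σ) - G m x τ * T ξ σ (j + 1) y) +
          y * σ * (G (m - j + 2) (x + y * ξ) (τ + (y : ℂ) ^ 2 * σ) - G m x τ * T ξ σ j y)‖ ≤
        (C1 + C0) * t ^ j := by
      intro y hy
      have hys : y ∈ Set.Icc 0 s := ⟨hy.1, by linarith [hy.2, ht.2]⟩
      have hy1 : y ≤ 1 := hys.2.trans hs1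
      have b1 := h1 ξ σ hξ hσ s hs hs1 hτs y hys
      have b0 := h0 ξ σ hξ hσ s hs hs1 hτs y hys
      rw [e1] at b1
      rw [e0] at b0
      rw [Nat.add_sub_cancel] at b1
      have hyt : y ^ j ≤ t ^ j := pow_le_pow_left₀ hy.1 hy.2.le j
      have hy2 : y * y ^ (j - 1) ≤ y ^ j := by
        rcases Nat.eq_zero_or_pos j with hj0 | hj0
        · subst hj0; simpa using hy1
        · rw [← pow_succ', Nat.sub_add_cancel hj0]
      refine (norm_add_le _ _).trans ?_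
      rw [norm_mul, norm_mul, norm_mul, Complex.norm_real, Real.norm_eq_abs,
        abs_of_nonneg hy.1]
      calc _ ≤ 1 * (C1 * y ^ j) + (y * 1) * (C0 * y ^ (j - 1)) := by
            refine add_le_add (mul_le_mul hξ b1 (norm_nonneg _) zero_le_one) ?_
            exact mul_le_mul (mul_le_mul_of_nonneg_left hσ hy.1) b0 (norm_nonneg _)
              (by linarith [hy.1])
        _ = C1 * y ^ j + C0 * (y * y ^ (j - 1)) := by ring
        _ ≤ C1 * t ^ j + C0 * t ^ j :=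
            add_le_add (mul_le_mul_of_nonneg_left hyt hC1)
              (mul_le_mul_of_nonneg_left (hy2.trans hyt) hC0)
        _ = (C1 + C0) * t ^ j := by ring
    have hfin := norm_image_sub_le_of_norm_deriv_right_le_segment hcont hder hbd t ⟨ht.1, le_rfl⟩
    rw [hf0, sub_zero, sub_zero] at hfin
    refine hfin.trans (le_of_eq ?_)
    rw [show j + 2 - 1 = j + 1 by omega, pow_succ, mul_assoc]

end SokalF
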