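import Mathlib

/-!
# The zeros of the theta function `∑ q^(j(j-1)/2) u^j` are simple
-/

namespace SokalF

open Filter Topology

/-- The coefficients of Euler's product `∏ (1 + x q ^ n)`. -/
noncomputable def e (q : ℂ) : ℕ → ℂ
  | 0 => 1
  | (k + 1) => q ^ k / (1 - q ^ (k + 1)) * e q k

variable {q : ℂ}

theorem one_sub_ne {q : ℂ} (hq : ‖q‖ < 1) (k : ℕ) : (1 : ℂ) - q ^ (k + 1) ≠ 0 := by
  intro h
  have h1 : q ^ (k + 1) = 1 := (sub_eq_zero.1 h).symm
  have h2 : ‖q‖ ^ (k + 1) = 1 := by rw [← norm_pow, h1, norm_one]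
  have h3 : ‖q‖ ^ (k + 1) < 1 := pow_lt_one₀ (norm_nonneg _) hq (Nat.succ_ne_zero k)
  linarith

theorem e_succ (hq : ‖q‖ < 1) (k : ℕ) : e q (k + 1) * (1 - q ^ (k + 1)) = q ^ k * e q k := by
  simp only [e]
  field_simp [one_sub_ne hq k]

theorem e_ratio (hq : ‖q‖ < 1) : Tendsto (fun k : ℕ => ‖q ^ k / (1 - q ^ (k + 1))‖) atTop (𝓝 0) := by
  have h1 : Tendsto (fun k : ℕ => q ^ k) atTop (𝓝 0) := tendsto_pow_atTop_nhds_zero_of_norm_lt_one hq
  have h2 : Tendsto (fun k : ℕ => q ^ k / (1 - q ^ (k + 1))) atTop (𝓝 (0 / (1 - 0))) :=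
    h1.div (tendsto_const_nhds.sub ((tendsto_add_atTop_iff_nat 1).2 h1)) (by norm_num)
  rw [zero_div] at h2
  simpa using h2.norm

/-- Summability with a polynomial weight. -/
theorem summable_e (hq : ‖q‖ < 1) (x : ℂ) (p : ℕ) :
    Summable fun k : ℕ => ((k : ℝ) + 1) ^ p * ‖e q k‖ * ‖x‖ ^ k := by
  apply summable_of_ratio_norm_eventually_le (r := 1 / 2) (by norm_num)
  have h1 := (e_ratio hq).mul_const (2 ^ p * ‖x‖)
  rw [zero_mul] at h1
  filter_upwards [h1.eventually (gt_mem_nhds (show (0 : ℝ) < 1 / 2 by norm_num))] with k hk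
  rw [Real.norm_of_nonneg (by positivity), Real.norm_of_nonneg (by positivity)]
  simp only [e]
  rw [norm_mul]
  have h2 : (((k + 1 : ℕ) : ℝ) + 1) ^ p ≤ 2 ^ p * ((k : ℝ) + 1) ^ p := by
    rw [← mul_pow]
    apply pow_le_pow_left₀ (by positivity)
    push_cast
    linarith [(Nat.cast_nonneg k : (0 : ℝ) ≤ k)]
  calc (((k + 1 : ℕ) : ℝ) + 1) ^ p * (‖q ^ k / (1 - q ^ (k + 1))‖ * ‖e q k‖) * ‖x‖ ^ (k + 1)
      ≤ (2 ^ p * ((k : ℝ) + 1) ^ p) * (‖q ^ k / (1 - q ^ (k + 1))‖ * ‖e q k‖) *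
          ‖x‖ ^ (k + 1) := by gcongr
    _ = (‖q ^ k / (1 - q ^ (k + 1))‖ * (2 ^ p * ‖x‖)) *
          (((k : ℝ) + 1) ^ p * ‖e q k‖ * ‖x‖ ^ k) := by ring
    _ ≤ 1 / 2 * (((k : ℝ) + 1) ^ p * ‖e q k‖ * ‖x‖ ^ k) := by gcongr

/-- Euler's product. -/
noncomputable def E (q x : ℂ) : ℂ := ∑' k : ℕ, e q k * x ^ k

/-- `x E'(x)`. -/
noncomputable def E1 (q x : ℂ) : ℂ := ∑' k : ℕ, (k : ℂ) * e q k * x ^ k

theorem summable_E (hq : ‖q‖ < 1) (x : ℂ) : Summable fun k : ℕ => e q k * x ^ k := by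
  refine Summable.of_norm_bounded (summable_e hq x 0) fun k => ?_
  rw [norm_mul, norm_pow, pow_zero, one_mul]

theorem summable_E1 (hq : ‖q‖ < 1) (x : ℂ) : Summable fun k : ℕ => (k : ℂ) * e q k * x ^ k := by
  refine Summable.of_norm_bounded (summable_e hq x 1) fun k => ?_
  rw [norm_mul, norm_mul, norm_pow, pow_one, Complex.norm_natCast]
  gcongr
  linarith

theorem E_zero : E q 0 = 1 := by
  unfold E
  rw [tsum_eq_single 0]
  · simp [e]
  · intro k hk
    simp [hk]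

theorem E_eq (hq : ‖q‖ < 1) (x : ℂ) : E q x = (1 + x) * E q (q * x) := by
  have h1 := summable_E hq x
  have h2 := summable_E hq (q * x)
  have h3 : E q x - E q (q * x) = x * E q (q * x) := by
    unfold E
    rw [← Summable.tsum_sub h1 h2, (h1.sub h2).tsum_eq_zero_add, ← tsum_mul_left]
    simp only [pow_zero, sub_self, zero_add]
    refine tsum_congr fun k => ?_
    have h4 := e_succ hq k
    calc e q (k + 1) * x ^ (k + 1) - e q (k + 1) * (q * x) ^ (k + 1)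
        = (e q (k + 1) * (1 - q ^ (k + 1))) * x ^ (k + 1) := by rw [mul_pow]; ring
      _ = x * (e q k * (q * x) ^ k) := by rw [h4, mul_pow]; ring
  linear_combination h3

theorem E1_eq (hq : ‖q‖ < 1) (x : ℂ) :
    E1 q x = (1 + x) * E1 q (q * x) + x * E q (q * x) := by
  have h1 := summable_E1 hq x
  have h2 := summable_E1 hq (q * x)
  have h2' := summable_E hq (q * x)
  have h3 : E1 q x - E1 q (q * x) = x * (E1 q (q * x) + E q (q * x)) := by
    unfold E1 E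
    rw [← Summable.tsum_sub h1 h2, (h1.sub h2).tsum_eq_zero_add, ← Summable.tsum_add h2 h2',
      ← tsum_mul_left]
    simp only [CharP.cast_eq_zero, zero_mul, sub_self, zero_add]
    refine tsum_congr fun k => ?_
    have h4 := e_succ hq k
    calc ((k + 1 : ℕ) : ℂ) * e q (k + 1) * x ^ (k + 1) -
          ((k + 1 : ℕ) : ℂ) * e q (k + 1) * (q * x) ^ (k + 1)
        = ((k + 1 : ℕ) : ℂ) * (e q (k + 1) * (1 - q ^ (k + 1))) * x ^ (k + 1) := by
          rw [mul_pow]; ring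
      _ = x * ((k : ℂ) * e q k * (q * x) ^ k + e q k * (q * x) ^ k) := by
          rw [h4, mul_pow]; push_cast; ring
  linear_combination h3

theorem hasDerivAt_E_zero (hq : ‖q‖ < 1) : Tendsto (E q) (𝓝 0) (𝓝 1) := by
  have h1 : ContinuousOn (E q) (Metric.closedBall 0 1) := by
    unfold E
    refine continuousOn_tsum (u := fun k : ℕ => ((k : ℝ) + 1) ^ 0 * ‖e q k‖ * ‖(1 : ℂ)‖ ^ k) ?_
      (summable_e hq 1 0) ?_
    · intro k
      fun_prop
    · intro k x hx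
      rw [mem_closedBall_zero_iff] at hx
      rw [norm_mul, norm_pow, pow_zero, one_mul, norm_one, one_pow, mul_one]
      exact mul_le_of_le_one_right (norm_nonneg _) (pow_le_one₀ (norm_nonneg _) hx)
  have h2 := h1.continuousAt (Metric.closedBall_mem_nhds 0 one_pos)
  have h3 := h2.tendsto
  rwa [E_zero] at h3

theorem E_ne_zero (hq : ‖q‖ < 1) {x : ℂ} (hx : ‖x‖ < 1) : E q x ≠ 0 := by
  intro h0
  have h1 : ∀ n : ℕ, E q (q ^ n * x) = 0 := by
    intro n
    induction n with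
    | zero => simpa using h0
    | succ n ih =>
      rw [E_eq hq] at ih
      rcases mul_eq_zero.1 ih with h2 | h2
      · exfalso
        have h3 : q ^ n * x = -1 := by linear_combination h2
        have h4 : ‖q ^ n * x‖ = 1 := by rw [h3, norm_neg, norm_one]
        rw [norm_mul, norm_pow] at h4
        have h5 : ‖q‖ ^ n * ‖x‖ ≤ 1 * ‖x‖ :=
          mul_le_mul_of_nonneg_right (pow_le_one₀ (norm_nonneg _) hq.le) (norm_nonneg _)
        linarith
      · rw [pow_succ']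
        rwa [mul_assoc]
  have h2 : Tendsto (fun n : ℕ => q ^ n * x) atTop (𝓝 0) := by
    have := (tendsto_pow_atTop_nhds_zero_of_norm_lt_one hq).mul_const x
    rwa [zero_mul] at this
  have h3 := (hasDerivAt_E_zero hq).comp h2
  have h4 : Tendsto (fun _ : ℕ => (0 : ℂ)) atTop (𝓝 1) := h3.congr fun n => h1 n
  exact one_ne_zero (tendsto_nhds_unique h4 tendsto_const_nhds)

/-- The coefficients of the product `E (u) E (v)`, `u v = q`. -/
noncomputable def a (q : ℂ) (j : ℕ) : ℂ := ∑' l : ℕ, e q (l + j) * e q l * q ^ l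

theorem e_tendsto (hq : ‖q‖ < 1) : Tendsto (e q) atTop (𝓝 0) := by
  have h1 := (summable_E hq 1).tendsto_atTop_zero
  simpa using h1

theorem e_bdd (hq : ‖q‖ < 1) : ∃ C : ℝ, 0 ≤ C ∧ ∀ k, ‖e q k‖ ≤ C := by
  obtain ⟨C, hC⟩ := (e_tendsto hq).norm.bddAbove_range
  exact ⟨C, (norm_nonneg (e q 0)).trans (hC ⟨0, rfl⟩), fun k => hC ⟨k, rfl⟩⟩

theorem summable_ee (hq : ‖q‖ < 1) (j : ℕ) {b : ℕ → ℂ} (hb : ∀ l, ‖b l‖ ≤ 1) :
    Summable fun l : ℕ => e q (l + j) * e q l * b l := by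
  obtain ⟨C, hC0, hC⟩ := e_bdd hq
  refine Summable.of_norm_bounded ((summable_e hq 1 0).mul_left C) fun l => ?_
  rw [norm_mul, norm_mul, norm_one, one_pow, mul_one, pow_zero, one_mul]
  calc ‖e q (l + j)‖ * ‖e q l‖ * ‖b l‖ ≤ C * ‖e q l‖ * 1 := by
        gcongr
        · exact hC _
        · exact hb l
    _ = C * ‖e q l‖ := mul_one _

theorem a_rec (hq : ‖q‖ < 1) (j : ℕ) : a q (j + 2) - q ^ (j + 1) * a q (j + 1) =
    -(a q (j + 1) - q ^ j * a q j) := by
  have hb : ∀ l : ℕ, ‖q ^ l‖ ≤ 1 := fun l => by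
    rw [norm_pow]; exact pow_le_one₀ (norm_nonneg _) hq.le
  have hs : ∀ j, Summable fun l : ℕ => e q (l + j) * e q l := fun j => by
    have := summable_ee hq j (b := fun _ => 1) (fun l => by simp)
    simpa using this
  have hs' : ∀ j, Summable fun l : ℕ => e q (l + j) * e q l * q ^ l := fun j =>
    summable_ee hq j hb
  -- first relation
  have r1 : (∑' l : ℕ, e q (l + (j + 1)) * e q l) - a q (j + 1) = a q (j + 2) := by
    unfold a
    rw [← Summable.tsum_sub (hs _) (hs' _), ((hs _).sub (hs' _)).tsum_eq_zero_add]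
    simp only [pow_zero, mul_one, sub_self, zero_add]
    refine tsum_congr fun l => ?_
    have h4 := e_succ hq l
    calc e q (l + 1 + (j + 1)) * e q (l + 1) - e q (l + 1 + (j + 1)) * e q (l + 1) * q ^ (l + 1)
        = e q (l + 1 + (j + 1)) * (e q (l + 1) * (1 - q ^ (l + 1))) := by ring
      _ = e q (l + (j + 2)) * e q l * q ^ l := by
          rw [h4, show l + 1 + (j + 1) = l + (j + 2) by ring]; ring
  have r2 : (∑' l : ℕ, e q (l + (j + 1)) * e q l) - q ^ (j + 1) * a q (j + 1) =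
      q ^ j * a q j := by
    unfold a
    rw [← tsum_mul_left, ← tsum_mul_left, ← Summable.tsum_sub (hs _) ((hs' _).mul_left _)]
    refine tsum_congr fun l => ?_
    have h4 := e_succ hq (l + j)
    calc e q (l + (j + 1)) * e q l - q ^ (j + 1) * (e q (l + (j + 1)) * e q l * q ^ l)
        = (e q (l + j + 1) * (1 - q ^ (l + j + 1))) * e q l := by
          rw [show l + (j + 1) = l + j + 1 by ring]; ring
      _ = q ^ j * (e q (l + j) * e q l * q ^ l) := by rw [h4]; ring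
  linear_combination r2 - r1

theorem a_tendsto (hq : ‖q‖ < 1) : Tendsto (a q) atTop (𝓝 0) := by
  obtain ⟨C, hC0, hC⟩ := e_bdd hq
  have h1 : Tendsto (fun j : ℕ => ∑' l : ℕ, e q (l + j) * e q l * q ^ l) atTop
      (𝓝 (∑' l : ℕ, (0 : ℂ) * e q l * q ^ l)) := by
    refine tendsto_tsum_of_dominated_convergence (bound := fun l => C * (((l : ℝ) + 1) ^ 0 *
      ‖e q l‖ * ‖(1 : ℂ)‖ ^ l)) ((summable_e hq 1 0).mul_left C) ?_ ?_
    · intro l
      have h2 : Tendsto (fun j : ℕ => e q (l + j)) atTop (𝓝 0) := by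
        refine (e_tendsto hq).comp ?_
        exact tendsto_atTop_mono (fun j => Nat.le_add_left j l) tendsto_id
      exact (h2.mul_const _).mul_const _
    · refine Eventually.of_forall fun j l => ?_
      rw [norm_mul, norm_mul, norm_one, one_pow, mul_one, pow_zero, one_mul]
      calc ‖e q (l + j)‖ * ‖e q l‖ * ‖q ^ l‖ ≤ C * ‖e q l‖ * 1 := by
            gcongr
            · exact hC _
            · rw [norm_pow]; exact pow_le_one₀ (norm_nonneg _) hq.le
        _ = C * ‖e q l‖ := mul_one _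
  simp only [zero_mul, tsum_zero] at h1
  exact h1

theorem a_succ (hq : ‖q‖ < 1) (j : ℕ) : a q (j + 1) = q ^ j * a q j := by
  have h1 : ∀ n : ℕ, ‖a q (j + n + 1) - q ^ (j + n) * a q (j + n)‖ =
      ‖a q (j + 1) - q ^ j * a q j‖ := by
    intro n
    induction n with
    | zero => rfl
    | succ n ih =>
      rw [← ih, show j + (n + 1) + 1 = (j + n) + 2 by ring, show j + (n + 1) = j + n + 1 by ring,
        a_rec hq, norm_neg]
  have h2 : Tendsto (fun n : ℕ => ‖a q (j + n + 1) - q ^ (j + n) * a q (j + n)‖) atTop (𝓝 0) := by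
    have t1 : Tendsto (fun n : ℕ => j + n) atTop atTop :=
      tendsto_atTop_mono (fun n => Nat.le_add_left n j) tendsto_id
    have t2 := (a_tendsto hq).comp t1
    have t3 := (a_tendsto hq).comp ((tendsto_add_atTop_nat 1).comp t1)
    have t4 := (tendsto_pow_atTop_nhds_zero_of_norm_lt_one hq).comp t1
    have t5 := (t3.sub (t4.mul t2)).norm
    simpa using t5
  have h3 : Tendsto (fun _ : ℕ => ‖a q (j + 1) - q ^ j * a q j‖) atTop (𝓝 0) :=
    h2.congr h1
  have h4 := tendsto_nhds_unique h3 tendsto_const_nhds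
  rw [eq_comm, norm_eq_zero, sub_eq_zero] at h4
  exact h4

theorem a_eq (hq : ‖q‖ < 1) (j : ℕ) : a q (j + 1) = q ^ (j * (j + 1) / 2) * a q 0 := by
  induction j with
  | zero => simpa using a_succ hq 0
  | succ j ih =>
    rw [a_succ hq, ih, ← mul_assoc, ← pow_add]
    congr 2
    have := Nat.triangle_succ (j + 1)
    simp only [Nat.add_sub_cancel] at this
    rw [mul_comm (j + 1) (j + 1 + 1), this, mul_comm (j + 1) j, add_comm]

/-- Summation by the difference of the indices. -/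
theorem tsum_diff {f : ℕ × ℕ → ℂ} (hf : Summable f) : ∑' p, f p =
    (∑' j : ℕ, ∑' l : ℕ, f (l + j, l)) + ∑' j : ℕ, ∑' k : ℕ, f (k, k + (j + 1)) := by
  classical
  set g1 : ℕ × ℕ → ℕ × ℕ := fun p => (p.2 + p.1, p.2) with hg1
  set g2 : ℕ × ℕ → ℕ × ℕ := fun p => (p.2, p.2 + (p.1 + 1)) with hg2
  have i1 : Function.Injective g1 := by
    rintro ⟨x1, x2⟩ ⟨y1, y2⟩ h
    simp only [hg1, Prod.mk.injEq] at h ⊢
    omega
  have i2 : Function.Injective g2 := by
    rintro ⟨x1, x2⟩ ⟨y1, y2⟩ h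
    simp only [hg2, Prod.mk.injEq] at h ⊢
    omega
  set s : Set (ℕ × ℕ) := {p | p.2 ≤ p.1} with hs
  have e1 : ∑' p, f p = (∑' p, s.indicator f p) + ∑' p, sᶜ.indicator f p := by
    rw [← Summable.tsum_add (hf.indicator s) (hf.indicator sᶜ)]
    refine tsum_congr fun p => ?_
    exact (congrFun (Set.indicator_self_add_compl s f) p).symm
  have e2 : ∑' p, s.indicator f p = ∑' p, f (g1 p) := by
    have h1 := i1.tsum_eq (f := s.indicator f) (by
      intro p hp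
      have h2 : p ∈ s := Set.mem_of_indicator_ne_zero (Function.mem_support.1 hp)
      have h3 : p.2 ≤ p.1 := h2
      exact ⟨(p.1 - p.2, p.2), by simp only [hg1]; ext <;> simp; omega⟩)
    rw [← h1]
    refine tsum_congr fun p => ?_
    apply Set.indicator_of_mem
    show p.2 ≤ p.2 + p.1
    omega
  have e3 : ∑' p, sᶜ.indicator f p = ∑' p, f (g2 p) := by
    have h1 := i2.tsum_eq (f := sᶜ.indicator f) (by
      intro p hp
      have h2 : p ∈ sᶜ := Set.mem_of_indicator_ne_zero (Function.mem_support.1 hp)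
      have h3 : ¬ p.2 ≤ p.1 := h2
      exact ⟨(p.2 - p.1 - 1, p.1), by simp only [hg2]; ext <;> simp; omega⟩)
    rw [← h1]
    refine tsum_congr fun p => ?_
    apply Set.indicator_of_mem
    show ¬ p.2 + (p.1 + 1) ≤ p.2
    omega
  have t1 := (hf.comp_injective i1).tsum_prod
  have t2 := (hf.comp_injective i2).tsum_prod
  rw [e1, e2, e3]
  exact congrArg₂ (· + ·) t1 t2

/-- The theta function, `u v = q`. -/
noncomputable def TA (q u v : ℂ) : ℂ :=
  1 + ∑' j : ℕ, q ^ (j * (j + 1) / 2) * u ^ (j + 1) + ∑' j : ℕ, q ^ (j * (j + 1) / 2) * v ^ (j + 1)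

/-- Its logarithmic derivative in `u`. -/
noncomputable def TB (q u v : ℂ) : ℂ :=
  ∑' j : ℕ, ((j : ℂ) + 1) * (q ^ (j * (j + 1) / 2) * u ^ (j + 1)) -
    ∑' j : ℕ, ((j : ℂ) + 1) * (q ^ (j * (j + 1) / 2) * v ^ (j + 1))

theorem summable_prod_e (hq : ‖q‖ < 1) (u v : ℂ) {w : ℕ × ℕ → ℂ}
    (hw : ∀ p, ‖w p‖ ≤ ((p.1 : ℝ) + 1) ^ 1 * ((p.2 : ℝ) + 1) ^ 1) :
    Summable fun p : ℕ × ℕ => w p * (e q p.1 * u ^ p.1 * (e q p.2 * v ^ p.2)) := by
  have h1 := (summable_e hq u 1).mul_of_nonneg (summable_e hq v 1) (fun k => by positivity)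
    (fun k => by positivity)
  refine Summable.of_norm_bounded h1 fun p => ?_
  rw [norm_mul, norm_mul, norm_mul, norm_mul, norm_pow, norm_pow]
  calc ‖w p‖ * (‖e q p.1‖ * ‖u‖ ^ p.1 * (‖e q p.2‖ * ‖v‖ ^ p.2))
      ≤ (((p.1 : ℝ) + 1) ^ 1 * ((p.2 : ℝ) + 1) ^ 1) *
          (‖e q p.1‖ * ‖u‖ ^ p.1 * (‖e q p.2‖ * ‖v‖ ^ p.2)) :=
        mul_le_mul_of_nonneg_right (hw p) (by positivity)
    _ = _ := by ring

theorem prod_eq (hq : ‖q‖ < 1) {u v : ℂ} (huv : u * v = q) :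
    E q u * E q v = a q 0 * TA q u v := by
  have h1 : E q u * E q v = ∑' p : ℕ × ℕ, 1 * (e q p.1 * u ^ p.1 * (e q p.2 * v ^ p.2)) := by
    unfold E
    rw [tsum_mul_tsum_of_summable_norm (summable_E hq u).norm (summable_E hq v).norm]
    simp only [one_mul]
  rw [h1, tsum_diff (summable_prod_e hq u v (w := fun _ => 1) (by
    intro p
    rw [norm_one, pow_one, pow_one]
    nlinarith [(Nat.cast_nonneg p.1 : (0 : ℝ) ≤ p.1), (Nat.cast_nonneg p.2 : (0 : ℝ) ≤ p.2)]))]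
  have h2 : ∀ j : ℕ, (∑' l : ℕ, (1 : ℂ) * (e q (l + j) * u ^ (l + j) * (e q l * v ^ l))) =
      a q j * u ^ j := by
    intro j
    unfold a
    rw [← tsum_mul_right]
    refine tsum_congr fun l => ?_
    rw [← huv]
    ring
  have h3 : ∀ j : ℕ, (∑' k : ℕ, (1 : ℂ) * (e q k * u ^ k * (e q (k + (j + 1)) *
      v ^ (k + (j + 1))))) = a q (j + 1) * v ^ (j + 1) := by
    intro j
    unfold a
    rw [← tsum_mul_right]
    refine tsum_congr fun l => ?_
    rw [← huv]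
    ring
  simp only [h2, h3]
  have h4 : Summable fun j : ℕ => a q j * u ^ j := by
    have h5 := (summable_prod_e hq u v (w := fun _ => 1) (by
      intro p
      rw [norm_one, pow_one, pow_one]
      nlinarith [(Nat.cast_nonneg p.1 : (0 : ℝ) ≤ p.1), (Nat.cast_nonneg p.2 : (0 : ℝ) ≤ p.2)]))
    have i1 : Function.Injective (fun p : ℕ × ℕ => (p.2 + p.1, p.2)) := by
      rintro ⟨x1, x2⟩ ⟨y1, y2⟩ h
      simp only [Prod.mk.injEq] at h ⊢
      omega
    have h6 := (h5.comp_injective i1).prod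
    refine h6.congr fun j => ?_
    rw [← h2 j]
    rfl
  rw [h4.tsum_eq_zero_add]
  unfold TA
  rw [mul_add, mul_add, ← tsum_mul_left, ← tsum_mul_left, pow_zero, mul_one]
  have h7 : ∀ (x : ℂ) (j : ℕ), a q (j + 1) * x ^ (j + 1) =
      a q 0 * (q ^ (j * (j + 1) / 2) * x ^ (j + 1)) := by
    intro x j
    rw [a_eq hq]
    ring
  simp only [h7]

theorem prod_eq' (hq : ‖q‖ < 1) {u v : ℂ} (huv : u * v = q) :
    E1 q u * E q v - E q u * E1 q v = a q 0 * TB q u v := by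
  have hw : ∀ p : ℕ × ℕ, ‖((p.1 : ℂ) - p.2)‖ ≤ ((p.1 : ℝ) + 1) ^ 1 * ((p.2 : ℝ) + 1) ^ 1 := by
    intro p
    have h0 : ‖((p.1 : ℂ) - p.2)‖ ≤ (p.1 : ℝ) + p.2 := by
      refine (norm_sub_le _ _).trans ?_
      rw [Complex.norm_natCast, Complex.norm_natCast]
    refine h0.trans ?_
    nlinarith [(Nat.cast_nonneg p.1 : (0 : ℝ) ≤ p.1), (Nat.cast_nonneg p.2 : (0 : ℝ) ≤ p.2),
      mul_nonneg (Nat.cast_nonneg p.1 : (0 : ℝ) ≤ p.1) (Nat.cast_nonneg p.2 : (0 : ℝ) ≤ p.2)]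
  have hsum := summable_prod_e hq u v hw
  have h1 : E1 q u * E q v - E q u * E1 q v =
      ∑' p : ℕ × ℕ, ((p.1 : ℂ) - p.2) * (e q p.1 * u ^ p.1 * (e q p.2 * v ^ p.2)) := by
    obtain ⟨f1, hf1⟩ : ∃ f : ℕ → ℂ, ∀ k, f k = (k : ℂ) * e q k * u ^ k := ⟨_, fun _ => rfl⟩
    obtain ⟨f0, hf0⟩ : ∃ f : ℕ → ℂ, ∀ k, f k = e q k * u ^ k := ⟨_, fun _ => rfl⟩
    obtain ⟨g1, hg1⟩ : ∃ f : ℕ → ℂ, ∀ k, f k = (k : ℂ) * e q k * v ^ k := ⟨_, fun _ => rfl⟩
    obtain ⟨g0, hg0⟩ : ∃ f : ℕ → ℂ, ∀ k, f k = e q k * v ^ k := ⟨_, fun _ => rfl⟩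
    have sf1 : Summable f1 := (summable_E1 hq u).congr fun k => (hf1 k).symm
    have sf0 : Summable f0 := (summable_E hq u).congr fun k => (hf0 k).symm
    have sg1 : Summable g1 := (summable_E1 hq v).congr fun k => (hg1 k).symm
    have sg0 : Summable g0 := (summable_E hq v).congr fun k => (hg0 k).symm
    have t1 : E1 q u = ∑' k, f1 k := tsum_congr fun k => (hf1 k).symm
    have t2 : E q v = ∑' k, g0 k := tsum_congr fun k => (hg0 k).symm
    have t3 : E q u = ∑' k, f0 k := tsum_congr fun k => (hf0 k).symm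
    have t4 : E1 q v = ∑' k, g1 k := tsum_congr fun k => (hg1 k).symm
    rw [t1, t2, t3, t4]
    have s1 : (∑' k, f1 k) * ∑' k, g0 k = ∑' p : ℕ × ℕ, f1 p.1 * g0 p.2 :=
      tsum_mul_tsum_of_summable_norm sf1.norm sg0.norm
    have s2 : (∑' k, f0 k) * ∑' k, g1 k = ∑' p : ℕ × ℕ, f0 p.1 * g1 p.2 :=
      tsum_mul_tsum_of_summable_norm sf0.norm sg1.norm
    have m1 : Summable fun p : ℕ × ℕ => f1 p.1 * g0 p.2 :=
      summable_mul_of_summable_norm sf1.norm sg0.norm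
    have m2 : Summable fun p : ℕ × ℕ => f0 p.1 * g1 p.2 :=
      summable_mul_of_summable_norm sf0.norm sg1.norm
    rw [s1, s2, ← Summable.tsum_sub m1 m2]
    refine tsum_congr fun p => ?_
    rw [hf1, hg1, hf0, hg0]
    ring
  rw [h1, tsum_diff hsum]
  have h2 : ∀ j : ℕ, (∑' l : ℕ, (((l + j : ℕ) : ℂ) - (l : ℕ)) *
      (e q (l + j) * u ^ (l + j) * (e q l * v ^ l))) = j * (a q j * u ^ j) := by
    intro j
    unfold a
    rw [← tsum_mul_right, ← tsum_mul_left]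
    refine tsum_congr fun l => ?_
    rw [← huv]
    push_cast
    ring
  have h3 : ∀ j : ℕ, (∑' k : ℕ, ((k : ℂ) - ((k + (j + 1) : ℕ) : ℂ)) *
      (e q k * u ^ k * (e q (k + (j + 1)) * v ^ (k + (j + 1))))) =
      -(((j : ℂ) + 1) * (a q (j + 1) * v ^ (j + 1))) := by
    intro j
    unfold a
    rw [← tsum_mul_right, ← tsum_mul_left, ← tsum_neg]
    refine tsum_congr fun l => ?_
    rw [← huv]
    push_cast
    ring
  have h3' : (∑' j : ℕ, -(((j : ℂ) + 1) * (a q (j + 1) * v ^ (j + 1)))) =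
      -∑' j : ℕ, ((j : ℂ) + 1) * (a q (j + 1) * v ^ (j + 1)) :=
    tsum_neg (f := fun j : ℕ => ((j : ℂ) + 1) * (a q (j + 1) * v ^ (j + 1)))
  simp only [h2, h3]
  rw [h3']
  have h4 : Summable fun j : ℕ => (j : ℂ) * (a q j * u ^ j) := by
    have i1 : Function.Injective (fun p : ℕ × ℕ => (p.2 + p.1, p.2)) := by
      rintro ⟨x1, x2⟩ ⟨y1, y2⟩ h
      simp only [Prod.mk.injEq] at h ⊢
      omega
    have h6 := (hsum.comp_injective i1).prod
    refine h6.congr fun j => ?_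
    rw [← h2 j]
    rfl
  rw [h4.tsum_eq_zero_add]
  unfold TB
  rw [mul_sub, ← tsum_mul_left, ← tsum_mul_left, ← sub_eq_add_neg]
  have h7 : ∀ (x : ℂ) (j : ℕ), a q (j + 1) * x ^ (j + 1) =
      a q 0 * (q ^ (j * (j + 1) / 2) * x ^ (j + 1)) := by
    intro x j
    rw [a_eq hq]
    ring
  simp only [h7, CharP.cast_eq_zero, zero_mul, zero_add]
  push_cast
  congr 1
  · refine tsum_congr fun j => ?_
    ring
  · refine tsum_congr fun j => ?_
    ring

theorem TB_swap (q u v : ℂ) : TB q v u = -TB q u v := by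
  unfold TB
  ring

theorem TA_swap (q u v : ℂ) : TA q v u = TA q u v := by
  unfold TA
  ring

theorem theta_simple_aux (hq : ‖q‖ < 1) {u v : ℂ} (huv : u * v = q) (hu : ‖u‖ ≤ 1)
    (hE : E q u = 0) : TB q u v ≠ 0 := by
  rw [E_eq hq] at hE
  have hqu : ‖q * u‖ < 1 := by
    rw [norm_mul]
    calc ‖q‖ * ‖u‖ ≤ ‖q‖ * 1 := by gcongr
      _ < 1 := by linarith
  have h1 : 1 + u = 0 := (mul_eq_zero.1 hE).resolve_right (E_ne_zero hq hqu)
  have h2 : u = -1 := by linear_combination h1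
  have h3 : v = -q := by
    rw [h2] at huv
    linear_combination -huv
  intro hB
  have h4 := prod_eq' hq huv
  rw [hB, mul_zero, h3, h2, E1_eq hq, E_eq hq (-1)] at h4
  have h5 : E q (-q) ≠ 0 := E_ne_zero hq (by rwa [norm_neg])
  have h6 : E q (-q) * E q (-q) = 0 := by
    have e1 : q * (-1 : ℂ) = -q := by ring
    rw [e1] at h4
    linear_combination -h4
  exact h5 (mul_self_eq_zero.1 h6)

theorem a_zero_ne (hq : ‖q‖ < 1) : a q 0 ≠ 0 := by
  obtain ⟨s, hs⟩ : ∃ s : ℂ, s * s = q := by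
    obtain ⟨s, hs⟩ := IsAlgClosed.exists_pow_nat_eq q (n := 2) (by norm_num)
    exact ⟨s, by rw [← hs]; ring⟩
  intro h0
  have h1 := prod_eq hq hs
  rw [h0, zero_mul, mul_self_eq_zero] at h1
  refine E_ne_zero hq ?_ h1
  by_contra hcon
  push Not at hcon
  have h2 : ‖q‖ = ‖s‖ * ‖s‖ := by rw [← hs, norm_mul]
  nlinarith

/-- The zeros of the theta function are simple. -/
theorem theta_simple (hq : ‖q‖ < 1) {u v : ℂ} (huv : u * v = q) (hu : ‖u‖ ≤ 1) (hv : ‖v‖ ≤ 1)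
    (hA : TA q u v = 0) (hB : TB q u v = 0) : False := by
  have h1 := prod_eq hq huv
  rw [hA, mul_zero, mul_eq_zero] at h1
  rcases h1 with h1 | h1
  · exact theta_simple_aux hq huv hu h1 hB
  · refine theta_simple_aux hq (u := v) (v := u) (by rw [mul_comm]; exact huv) hv h1 ?_
    rw [TB_swap, hB, neg_zero]

end SokalF
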