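import Pool.Agent.Lib_MP_af4de1.Local
import Pool.Agent.Lib_MP_af4de1.Theta

/-!
# Multiple zeros of large modulus, locally uniformly in the open disc
-/

namespace SokalF

open Filter Topology

/-- The terms of the series `F`. -/
noncomputable def tm (q z : ℂ) (k : ℕ) : ℂ :=
  q ^ (k * (k - 1) / 2) * z ^ k / (Nat.factorial k : ℂ)

theorem tm_succ (q z : ℂ) (k : ℕ) : tm q z (k + 1) = tm q z k * (q ^ k * z / ((k : ℂ) + 1)) := by
  unfold tm
  rw [Nat.triangle_succ, Nat.factorial_succ, pow_add, pow_succ]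
  have h0 : (Nat.factorial k : ℂ) ≠ 0 := by exact_mod_cast Nat.factorial_ne_zero k
  have h3 : ((k : ℂ) + 1) ≠ 0 := by exact_mod_cast Nat.succ_ne_zero k
  push_cast
  field_simp

theorem tm_ne_zero {q z : ℂ} (hq : q ≠ 0) (hz : z ≠ 0) (k : ℕ) : tm q z k ≠ 0 := by
  unfold tm
  have h0 : (Nat.factorial k : ℂ) ≠ 0 := by exact_mod_cast Nat.factorial_ne_zero k
  exact div_ne_zero (mul_ne_zero (pow_ne_zero _ hq) (pow_ne_zero _ hz)) h0

/-- The corrections above the dominating index. -/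
noncomputable def α (k : ℕ) : ℕ → ℝ
  | 0 => 1
  | (j + 1) => α k j * (((k : ℝ) + 1) / ((k : ℝ) + 1 + j))

/-- The corrections below the dominating index. -/
noncomputable def β (k : ℕ) : ℕ → ℝ
  | 0 => 1
  | (l + 1) => β k l * (((k - l : ℕ) : ℝ) / k)

theorem α_mem (k j : ℕ) : 0 ≤ α k j ∧ α k j ≤ 1 := by
  induction j with
  | zero => simp [α]
  | succ j ih =>
    have h1 : ((k : ℝ) + 1) / ((k : ℝ) + 1 + j) ≤ 1 := by
      rw [div_le_one (by positivity)]
      linarith [(Nat.cast_nonneg j : (0 : ℝ) ≤ j)]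
    exact ⟨mul_nonneg ih.1 (by positivity), mul_le_one₀ ih.2 (by positivity) h1⟩

theorem β_mem (k l : ℕ) : 0 ≤ β k l ∧ β k l ≤ 1 := by
  induction l with
  | zero => simp [β]
  | succ l ih =>
    have h1 : ((k - l : ℕ) : ℝ) / k ≤ 1 := by
      apply div_le_one_of_le₀ _ (by positivity)
      exact_mod_cast Nat.sub_le k l
    exact ⟨mul_nonneg ih.1 (by positivity), mul_le_one₀ ih.2 (by positivity) h1⟩

theorem α_one (k : ℕ) : α k 1 = 1 := by
  simp only [α, Nat.cast_zero, add_zero, one_mul]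
  exact div_self (by positivity)

theorem β_one {k : ℕ} (hk : 0 < k) : β k 1 = 1 := by
  have : (k : ℝ) ≠ 0 := by exact_mod_cast hk.ne'
  simp only [β, Nat.sub_zero, one_mul]
  exact div_self this

theorem β_zero_of_lt {k l : ℕ} (h : k < l) : β k l = 0 := by
  obtain ⟨m, rfl⟩ : ∃ m, l = k + 1 + m := ⟨l - (k + 1), by omega⟩
  induction m with
  | zero => simp [β]
  | succ m ih =>
    rw [show k + 1 + (m + 1) = (k + 1 + m) + 1 by ring]
    simp only [β]
    rw [ih (by omega), zero_mul]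

theorem α_tendsto (j : ℕ) : Tendsto (fun k : ℕ => α k j) atTop (𝓝 1) := by
  induction j with
  | zero => simp only [α]; exact tendsto_const_nhds
  | succ j ih =>
    have h1 : Tendsto (fun k : ℕ => ((k : ℝ) + 1) / ((k : ℝ) + 1 + j)) atTop (𝓝 1) := by
      have h2 : Tendsto (fun k : ℕ => (j : ℝ) / ((k : ℝ) + 1 + j)) atTop (𝓝 0) := by
        apply Tendsto.div_atTop tendsto_const_nhds
        apply tendsto_atTop_add_const_right
        apply tendsto_atTop_add_const_right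
        exact tendsto_natCast_atTop_atTop
      have h3 : Tendsto (fun k : ℕ => 1 - (j : ℝ) / ((k : ℝ) + 1 + j)) atTop (𝓝 (1 - 0)) :=
        tendsto_const_nhds.sub h2
      rw [sub_zero] at h3
      refine h3.congr fun k => ?_
      have h4 : (k : ℝ) + 1 + j ≠ 0 := by positivity
      field_simp
      ring
    have h2 := ih.mul h1
    rw [mul_one] at h2
    exact h2

theorem β_tendsto (l : ℕ) : Tendsto (fun k : ℕ => β k l) atTop (𝓝 1) := by
  induction l with
  | zero => simp only [β]; exact tendsto_const_nhds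
  | succ l ih =>
    have h1 : Tendsto (fun k : ℕ => ((k - l : ℕ) : ℝ) / k) atTop (𝓝 1) := by
      have h2 : Tendsto (fun k : ℕ => (l : ℝ) / (k : ℝ)) atTop (𝓝 0) :=
        Tendsto.div_atTop tendsto_const_nhds tendsto_natCast_atTop_atTop
      have h3 : Tendsto (fun k : ℕ => 1 - (l : ℝ) / (k : ℝ)) atTop (𝓝 (1 - 0)) :=
        tendsto_const_nhds.sub h2
      rw [sub_zero] at h3
      refine h3.congr' ?_
      filter_upwards [eventually_ge_atTop (l + 1)] with k hk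
      have h4 : (k : ℝ) ≠ 0 := by
        have : 0 < k := by omega
        exact_mod_cast this.ne'
      rw [Nat.cast_sub (by omega)]
      field_simp
    have h2 := ih.mul h1
    rw [mul_one] at h2
    exact h2

theorem tm_up {q z : ℂ} (k j : ℕ) : tm q z (k + j) = tm q z k *
    (q ^ (j * (j - 1) / 2) * (q ^ k * z / ((k : ℂ) + 1)) ^ j * (α k j : ℂ)) := by
  induction j with
  | zero => simp [α]
  | succ j ih =>
    rw [← add_assoc, tm_succ, ih, Nat.triangle_succ]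
    simp only [α]
    have h1 : ((k : ℂ) + 1) ≠ 0 := by exact_mod_cast Nat.succ_ne_zero k
    have h2 : ((k : ℂ) + 1 + j) ≠ 0 := by
      have : ((k + 1 + j : ℕ) : ℂ) ≠ 0 := by exact_mod_cast (by omega : k + 1 + j ≠ 0)
      simpa using this
    have h3 : ((k : ℂ) + j + 1) ≠ 0 := by
      have e : (k : ℂ) + j + 1 = (k : ℂ) + 1 + j := by ring
      rw [e]; exact h2
    rw [pow_succ (q ^ k * z / ((k : ℂ) + 1)) j, pow_add q k j, pow_add q (j * (j - 1) / 2) j]
    push_cast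
    rw [show (k : ℂ) + j + 1 = (k : ℂ) + 1 + j by ring]
    field_simp

theorem tm_down {q z : ℂ} (hq : q ≠ 0) (hz : z ≠ 0) (k l : ℕ) (hl : l ≤ k) :
    tm q z (k - l) = tm q z k *
      (q ^ (l * (l - 1) / 2) * ((k : ℂ) / (q ^ (k - 1) * z)) ^ l * (β k l : ℂ)) := by
  induction l with
  | zero => simp [β]
  | succ l ih =>
    obtain ⟨i, rfl⟩ : ∃ i, k = i + l + 1 := ⟨k - l - 1, by omega⟩
    have h1 := ih (by omega)
    rw [show i + l + 1 - l = i + 1 by omega, tm_succ] at h1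
    have e1 : i + l + 1 - (l + 1) = i := by omega
    have e2 : i + l + 1 - 1 = i + l := by omega
    rw [e1, e2]
    rw [e2] at h1
    have h2 : ((i : ℂ) + 1) ≠ 0 := by exact_mod_cast Nat.succ_ne_zero i
    have h3 : q ^ i * z / ((i : ℂ) + 1) ≠ 0 :=
      div_ne_zero (mul_ne_zero (pow_ne_zero _ hq) hz) h2
    have h4 : tm q z i = tm q z (i + l + 1) *
        (q ^ (l * (l - 1) / 2) * (((i + l + 1 : ℕ) : ℂ) / (q ^ (i + l) * z)) ^ l *
        (β (i + l + 1) l : ℂ)) / (q ^ i * z / ((i : ℂ) + 1)) := by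
      rw [eq_div_iff h3]; exact h1
    rw [h4, Nat.triangle_succ]
    simp only [β]
    rw [show i + l + 1 - l = i + 1 by omega]
    have h5 : ((i + l + 1 : ℕ) : ℂ) ≠ 0 := by exact_mod_cast Nat.succ_ne_zero (i + l)
    rw [pow_succ (((i + l + 1 : ℕ) : ℂ) / (q ^ (i + l) * z)) l, pow_add q (l * (l - 1) / 2) l,
      pow_add q i l]
    push_cast
    push_cast at h5
    have h6 : q ^ i ≠ 0 := pow_ne_zero _ hq
    have h7 : q ^ l ≠ 0 := pow_ne_zero _ hq
    field_simp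

theorem tsum_split {g : ℕ → ℂ} (hg : Summable g) (k : ℕ) : ∑' i, g i =
    g k + (∑' j : ℕ, g (k + (j + 1))) + ∑' l : ℕ, (if l < k then g (k - (l + 1)) else 0) := by
  have h1 := hg.sum_add_tsum_nat_add (k + 1)
  rw [Finset.sum_range_succ] at h1
  have h2 : ∑ i ∈ Finset.range k, g i =
      ∑' l : ℕ, (if l < k then g (k - (l + 1)) else 0) := by
    rw [tsum_eq_sum (s := Finset.range k)]
    · rw [← Finset.sum_range_reflect]
      refine Finset.sum_congr rfl fun l hl => ?_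
      rw [if_pos (Finset.mem_range.1 hl)]
      congr 1
      omega
    · intro l hl
      rw [if_neg (by simpa using hl)]
  have h3 : ∑' i, g (i + (k + 1)) = ∑' j : ℕ, g (k + (j + 1)) :=
    tsum_congr fun j => by congr 1; omega
  rw [← h1, h2, h3]
  ring

theorem summable_tm_mul {q z : ℂ} (hq : ‖q‖ ≤ 1) :
    Summable (fun i : ℕ => (i : ℂ) * tm q z i) ∧ ∑' i : ℕ, (i : ℂ) * tm q z i =
      z * F q (q * z) := by
  have h1 : ∀ i : ℕ, ((i + 1 : ℕ) : ℂ) * tm q z (i + 1) =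
      z * (q ^ (i * (i - 1) / 2) * (q * z) ^ i / (Nat.factorial i : ℂ)) := by
    intro i
    rw [tm_succ]
    unfold tm
    have h3 : ((i : ℂ) + 1) ≠ 0 := by exact_mod_cast Nat.succ_ne_zero i
    rw [mul_pow]
    push_cast
    field_simp
  have h2 : Summable fun i : ℕ => ((i + 1 : ℕ) : ℂ) * tm q z (i + 1) :=
    ((summable_term hq (q * z)).mul_left z).congr fun i => (h1 i).symm
  have h3 : Summable (fun i : ℕ => (i : ℂ) * tm q z i) :=
    (summable_nat_add_iff (f := fun i : ℕ => (i : ℂ) * tm q z i) 1).1 h2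
  refine ⟨h3, ?_⟩
  rw [h3.tsum_eq_zero_add]
  simp only [CharP.cast_eq_zero, zero_mul, zero_add]
  rw [tsum_congr h1, tsum_mul_left]
  rfl

theorem half (j : ℕ) : (j + 1) * (j + 1 - 1) / 2 = j * (j + 1) / 2 := by
  rw [Nat.add_sub_cancel, mul_comm]

/-- The equations of a multiple zero in normalised form. -/
theorem normalised {q z : ℂ} (hq0 : q ≠ 0) (hq : ‖q‖ ≤ 1) (hz : z ≠ 0) (hF : F q z = 0)
    (hF' : F q (q * z) = 0) {k : ℕ} :
    (1 + (∑' j : ℕ, q ^ (j * (j + 1) / 2) * (q ^ k * z / ((k : ℂ) + 1)) ^ (j + 1) *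
        (α k (j + 1) : ℂ)) +
      (∑' l : ℕ, q ^ (l * (l + 1) / 2) * ((k : ℂ) / (q ^ (k - 1) * z)) ^ (l + 1) *
        (β k (l + 1) : ℂ)) = 0) ∧
    ((∑' j : ℕ, ((j : ℂ) + 1) * (q ^ (j * (j + 1) / 2) * (q ^ k * z / ((k : ℂ) + 1)) ^ (j + 1) *
        (α k (j + 1) : ℂ))) -
      (∑' l : ℕ, ((l : ℂ) + 1) * (q ^ (l * (l + 1) / 2) *
        ((k : ℂ) / (q ^ (k - 1) * z)) ^ (l + 1) * (β k (l + 1) : ℂ))) = 0) := by
  have ht := tm_ne_zero hq0 hz k
  have hs : Summable (tm q z) := summable_term hq z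
  have hs1 := summable_tm_mul (z := z) hq
  have up : ∀ j : ℕ, tm q z (k + (j + 1)) = tm q z k *
      (q ^ (j * (j + 1) / 2) * (q ^ k * z / ((k : ℂ) + 1)) ^ (j + 1) * (α k (j + 1) : ℂ)) := by
    intro j
    rw [tm_up, half]
  have down : ∀ l : ℕ, (if l < k then tm q z (k - (l + 1)) else 0) = tm q z k *
      (q ^ (l * (l + 1) / 2) * ((k : ℂ) / (q ^ (k - 1) * z)) ^ (l + 1) * (β k (l + 1) : ℂ)) := by
    intro l
    split_ifs with h
    · rw [tm_down hq0 hz k (l + 1) h, half]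
    · rw [β_zero_of_lt (by omega)]
      simp
  constructor
  · have h1 := tsum_split hs k
    have h2 : ∑' i, tm q z i = 0 := hF
    rw [h2, tsum_congr up, tsum_congr down, tsum_mul_left, tsum_mul_left] at h1
    have h3 : tm q z k * (1 + (∑' j : ℕ, q ^ (j * (j + 1) / 2) *
        (q ^ k * z / ((k : ℂ) + 1)) ^ (j + 1) * (α k (j + 1) : ℂ)) +
      (∑' l : ℕ, q ^ (l * (l + 1) / 2) * ((k : ℂ) / (q ^ (k - 1) * z)) ^ (l + 1) *
        (β k (l + 1) : ℂ))) = 0 := by
      rw [h1]; ring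
    exact (mul_eq_zero.1 h3).resolve_left ht
  · have hs2 : Summable fun i : ℕ => ((i : ℂ) - k) * tm q z i := by
      refine (hs1.1.sub (hs.mul_left (k : ℂ))).congr fun i => ?_
      ring
    have h0 : ∑' i : ℕ, ((i : ℂ) - k) * tm q z i = 0 := by
      have e1 : ∑' i : ℕ, ((i : ℂ) - k) * tm q z i =
          (∑' i : ℕ, (i : ℂ) * tm q z i) - ∑' i : ℕ, (k : ℂ) * tm q z i := by
        rw [← Summable.tsum_sub hs1.1 (hs.mul_left (k : ℂ))]
        refine tsum_congr fun i => ?_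
        ring
      have h2 : ∑' i, tm q z i = 0 := hF
      rw [e1, hs1.2, hF', tsum_mul_left, h2]
      ring
    have h1 := tsum_split hs2 k
    have up' : ∀ j : ℕ, (((k + (j + 1) : ℕ) : ℂ) - k) * tm q z (k + (j + 1)) = tm q z k *
        (((j : ℂ) + 1) * (q ^ (j * (j + 1) / 2) * (q ^ k * z / ((k : ℂ) + 1)) ^ (j + 1) *
        (α k (j + 1) : ℂ))) := by
      intro j
      rw [up j]
      push_cast
      ring
    have down' : ∀ l : ℕ, (if l < k then (((k - (l + 1) : ℕ) : ℂ) - k) * tm q z (k - (l + 1))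
        else 0) = tm q z k * -(((l : ℂ) + 1) * (q ^ (l * (l + 1) / 2) *
        ((k : ℂ) / (q ^ (k - 1) * z)) ^ (l + 1) * (β k (l + 1) : ℂ))) := by
      intro l
      have h5 := down l
      split_ifs at h5 ⊢ with h
      · rw [h5, Nat.cast_sub (by omega)]
        push_cast
        ring
      · rw [mul_neg, mul_left_comm, ← h5, mul_zero, neg_zero]
    rw [h0, tsum_congr up', tsum_congr down', tsum_mul_left, tsum_mul_left] at h1
    have e2 : (∑' l : ℕ, -(((l : ℂ) + 1) * (q ^ (l * (l + 1) / 2) *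
        ((k : ℂ) / (q ^ (k - 1) * z)) ^ (l + 1) * (β k (l + 1) : ℂ)))) =
        -∑' l : ℕ, ((l : ℂ) + 1) * (q ^ (l * (l + 1) / 2) *
        ((k : ℂ) / (q ^ (k - 1) * z)) ^ (l + 1) * (β k (l + 1) : ℂ)) :=
      tsum_neg (f := fun l : ℕ => ((l : ℂ) + 1) * (q ^ (l * (l + 1) / 2) *
        ((k : ℂ) / (q ^ (k - 1) * z)) ^ (l + 1) * (β k (l + 1) : ℂ)))
    rw [e2] at h1
    have h3 : tm q z k * ((∑' j : ℕ, ((j : ℂ) + 1) * (q ^ (j * (j + 1) / 2) *
        (q ^ k * z / ((k : ℂ) + 1)) ^ (j + 1) * (α k (j + 1) : ℂ))) -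
      (∑' l : ℕ, ((l : ℂ) + 1) * (q ^ (l * (l + 1) / 2) *
        ((k : ℂ) / (q ^ (k - 1) * z)) ^ (l + 1) * (β k (l + 1) : ℂ)))) = 0 := by
      rw [h1]; ring
    exact (mul_eq_zero.1 h3).resolve_left ht

theorem exists_index {r s : ℝ} (hr : r ≤ 1) (hr0 : 0 ≤ r) (hs : 1 ≤ s) :
    ∃ k : ℕ, 0 < k ∧ (k : ℝ) ≤ r ^ (k - 1) * s ∧ r ^ k * s < k + 1 := by
  classical
  have hex : ∃ k : ℕ, r ^ k * s < k + 1 := by
    refine ⟨⌈s⌉₊, ?_⟩
    have h1 : r ^ ⌈s⌉₊ * s ≤ 1 * s :=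
      mul_le_mul_of_nonneg_right (pow_le_one₀ hr0 hr) (by linarith)
    have h2 := Nat.le_ceil s
    linarith
  have hpos : 0 < Nat.find hex := by
    rw [Nat.find_pos]
    simp only [pow_zero, one_mul, CharP.cast_eq_zero, zero_add, not_lt]
    exact hs
  refine ⟨Nat.find hex, hpos, ?_, Nat.find_spec hex⟩
  have h1 := Nat.find_min hex (m := Nat.find hex - 1) (by omega)
  rw [not_lt, Nat.cast_sub (by omega)] at h1
  push_cast at h1
  linarith

/-- Passage to the limit in the series. -/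
theorem tannery {r : ℝ} (hr : r < 1) {qn un : ℕ → ℂ} {q u : ℂ} (hqn : ∀ n, ‖qn n‖ ≤ r)
    (hun : ∀ n, ‖un n‖ ≤ 1) (hq : Tendsto qn atTop (𝓝 q)) (hu : Tendsto un atTop (𝓝 u))
    {γ : ℕ → ℕ → ℝ} (hγ : ∀ n j, 0 ≤ γ n j ∧ γ n j ≤ 1) (hγ1 : ∀ n, γ n 0 = 1)
    (hγl : q ≠ 0 → ∀ j, Tendsto (fun n => γ n j) atTop (𝓝 1)) {w : ℕ → ℂ}
    (hw : ∀ j, ‖w j‖ ≤ (j : ℝ) + 1) :
    Tendsto (fun n => ∑' j : ℕ, w j * (qn n ^ (j * (j + 1) / 2) * un n ^ (j + 1) *
      (γ n j : ℂ))) atTop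
      (𝓝 (∑' j : ℕ, w j * (q ^ (j * (j + 1) / 2) * u ^ (j + 1)))) := by
  have hr0 : 0 ≤ r := (norm_nonneg _).trans (hqn 0)
  have hsum : Summable fun j : ℕ => ((j : ℝ) + 1) * r ^ j := by
    have h1 := summable_pow_mul_geometric_of_norm_lt_one 1 (r := r)
      (by rw [Real.norm_of_nonneg hr0]; exact hr)
    have h2 := summable_geometric_of_lt_one hr0 hr
    refine (h1.add h2).congr fun j => ?_
    rw [pow_one]
    ring
  refine tendsto_tsum_of_dominated_convergence hsum ?_ ?_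
  · intro j
    rcases Nat.eq_zero_or_pos j with hj | hj
    · subst hj
      simp only [zero_mul, Nat.zero_div, pow_zero, zero_add, pow_one, one_mul, hγ1,
        Complex.ofReal_one, mul_one]
      exact hu.const_mul _
    · by_cases hq0 : q = 0
      · subst hq0
        have hN : j * (j + 1) / 2 ≠ 0 := by
          have : 2 ≤ j * (j + 1) := by nlinarith
          omega
        rw [zero_pow hN, zero_mul, mul_zero]
        have h1 : Tendsto (fun n => w j * (qn n ^ (j * (j + 1) / 2) * un n ^ (j + 1))) atTop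
            (𝓝 (w j * (0 ^ (j * (j + 1) / 2) * u ^ (j + 1)))) :=
          ((hq.pow _).mul (hu.pow _)).const_mul _
        rw [zero_pow hN, zero_mul, mul_zero] at h1
        rw [tendsto_zero_iff_norm_tendsto_zero] at h1 ⊢
        refine squeeze_zero (fun n => norm_nonneg _) (fun n => ?_) h1
        rw [← mul_assoc, norm_mul _ (γ n j : ℂ)]
        refine mul_le_of_le_one_right (norm_nonneg _) ?_
        rw [Complex.norm_real, Real.norm_of_nonneg (hγ n j).1]
        exact (hγ n j).2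
      · have h1 : Tendsto (fun n => (γ n j : ℂ)) atTop (𝓝 ((1 : ℝ) : ℂ)) :=
          (Complex.continuous_ofReal.tendsto 1).comp (hγl hq0 j)
        have h2 := (((hq.pow (j * (j + 1) / 2)).mul (hu.pow (j + 1))).mul h1).const_mul (w j)
        simpa using h2
  · refine Eventually.of_forall fun n j => ?_
    rw [norm_mul, norm_mul, norm_mul, norm_pow, norm_pow, Complex.norm_real,
      Real.norm_of_nonneg (hγ n j).1]
    have h1 : ‖qn n‖ ^ (j * (j + 1) / 2) ≤ r ^ j := by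
      have hN : j ≤ j * (j + 1) / 2 := by
        rcases Nat.eq_zero_or_pos j with hj | hj
        · subst hj; simp
        · rw [Nat.le_div_iff_mul_le (by norm_num)]
          nlinarith
      exact (pow_le_pow_left₀ (norm_nonneg _) (hqn n) _).trans
        (pow_le_pow_of_le_one hr0 hr.le hN)
    have h2 : ‖un n‖ ^ (j + 1) ≤ 1 := pow_le_one₀ (norm_nonneg _) (hun n)
    calc ‖w j‖ * (‖qn n‖ ^ (j * (j + 1) / 2) * ‖un n‖ ^ (j + 1) * γ n j)
        ≤ ((j : ℝ) + 1) * (r ^ j * 1 * 1) := by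
          have h3 := hw j
          have h4 := (hγ n j).1
          have h5 := (hγ n j).2
          gcongr
      _ = ((j : ℝ) + 1) * r ^ j := by ring

/-- Multiple zeros are bounded, uniformly for `0 < |q| ≤ r < 1`. -/
theorem large_bound {r : ℝ} (hr : r < 1) : ∃ R : ℝ, ∀ q z : ℂ, 0 < ‖q‖ → ‖q‖ ≤ r →
    F q z = 0 → F q (q * z) = 0 → ‖z‖ ≤ R := by
  by_contra hcon
  push Not at hcon
  choose qs zs hq0 hqr hF hF' hbig using fun n : ℕ => hcon ((n : ℝ) + 1)
  have hz1 : ∀ n, 1 ≤ ‖zs n‖ := fun n => by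
    have := hbig n
    linarith [(Nat.cast_nonneg n : (0 : ℝ) ≤ n)]
  have hq1 : ∀ n, ‖qs n‖ ≤ 1 := fun n => (hqr n).trans hr.le
  choose k hk0 hk1 hk2 using fun n => exists_index (hq1 n) (norm_nonneg _) (hz1 n)
  have hqne : ∀ n, qs n ≠ 0 := fun n => norm_pos_iff.1 (hq0 n)
  have hzne : ∀ n, zs n ≠ 0 := fun n => norm_pos_iff.1 (by linarith [hz1 n])
  obtain ⟨u, hu⟩ : ∃ u : ℕ → ℂ, ∀ n, u n = qs n ^ k n * zs n / ((k n : ℂ) + 1) :=
    ⟨_, fun _ => rfl⟩
  obtain ⟨v, hv⟩ : ∃ v : ℕ → ℂ, ∀ n, v n = (k n : ℂ) / (qs n ^ (k n - 1) * zs n) :=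
    ⟨_, fun _ => rfl⟩
  have hkR : ∀ n, (0 : ℝ) < (k n : ℝ) + 1 := fun n => by positivity
  have hu1 : ∀ n, ‖u n‖ ≤ 1 := by
    intro n
    have e1 : ‖(k n : ℂ) + 1‖ = (k n : ℝ) + 1 := by
      rw [← Nat.cast_succ, Complex.norm_natCast]; push_cast; ring
    rw [hu, norm_div, norm_mul, norm_pow, e1, div_le_one (hkR n)]
    exact (hk2 n).le
  have hv1 : ∀ n, ‖v n‖ ≤ 1 := by
    intro n
    rw [hv, norm_div, norm_mul, norm_pow, Complex.norm_natCast]
    exact div_le_one_of_le₀ (hk1 n) (by positivity)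
  have huv : ∀ n, u n * v n = qs n * ((k n : ℂ) / ((k n : ℂ) + 1)) := by
    intro n
    have h1 : ((k n : ℂ) + 1) ≠ 0 := by exact_mod_cast Nat.succ_ne_zero (k n)
    have h2 : qs n ^ (k n) = qs n ^ (k n - 1) * qs n := by
      rw [← pow_succ, Nat.sub_add_cancel (hk0 n)]
    have h3 := pow_ne_zero (k n - 1) (hqne n)
    have h4 := hzne n
    rw [hu, hv, h2]
    field_simp
  -- a convergent subsequence
  have hK : IsCompact (Metric.closedBall (0 : ℂ) r ×ˢ (Metric.closedBall (0 : ℂ) 1 ×ˢ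
      Metric.closedBall (0 : ℂ) 1)) :=
    (isCompact_closedBall _ _).prod ((isCompact_closedBall _ _).prod (isCompact_closedBall _ _))
  obtain ⟨⟨q, u', v'⟩, hmem, φ, hφ, hlim⟩ := hK.tendsto_subseq
    (x := fun n => (qs n, u n, v n)) (fun n => ⟨mem_closedBall_zero_iff.2 (hqr n),
      mem_closedBall_zero_iff.2 (hu1 n), mem_closedBall_zero_iff.2 (hv1 n)⟩)
  have hqlim : Tendsto (fun n => qs (φ n)) atTop (𝓝 q) := (continuous_fst.tendsto _).comp hlim
  have hulim : Tendsto (fun n => u (φ n)) atTop (𝓝 u') :=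
    ((continuous_fst.comp continuous_snd).tendsto _).comp hlim
  have hvlim : Tendsto (fun n => v (φ n)) atTop (𝓝 v') :=
    ((continuous_snd.comp continuous_snd).tendsto _).comp hlim
  have hqr' : ‖q‖ ≤ r := mem_closedBall_zero_iff.1 hmem.1
  have hu1' : ‖u'‖ ≤ 1 := mem_closedBall_zero_iff.1 hmem.2.1
  have hv1' : ‖v'‖ ≤ 1 := mem_closedBall_zero_iff.1 hmem.2.2
  have hr0 : 0 ≤ r := (norm_nonneg _).trans hqr'
  -- the index tends to infinity unless `q = 0`
  have hkinf : q ≠ 0 → Tendsto (fun n => k (φ n)) atTop atTop := by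
    intro hq
    rw [tendsto_atTop]
    intro K
    have hδ : 0 < ‖q‖ / 2 := by positivity
    have h1 : ∀ᶠ n in atTop, ‖q‖ / 2 < ‖qs (φ n)‖ :=
      hqlim.norm.eventually (lt_mem_nhds (by linarith))
    have h2 : ∀ᶠ n : ℕ in atTop, ((K : ℝ) + 1) / (‖q‖ / 2) ^ K ≤ n :=
      tendsto_natCast_atTop_atTop.eventually_ge_atTop _
    filter_upwards [h1, h2] with n h1 h2
    by_contra hlt
    push Not at hlt
    have h3 : (n : ℝ) ≤ ‖zs (φ n)‖ := by
      have h4 := hbig (φ n)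
      have h5 : (n : ℝ) ≤ φ n := by exact_mod_cast hφ.id_le n
      linarith
    have h4 := hk2 (φ n)
    have h5 : (‖q‖ / 2) ^ K ≤ ‖qs (φ n)‖ ^ k (φ n) := by
      calc (‖q‖ / 2) ^ K ≤ ‖qs (φ n)‖ ^ K := pow_le_pow_left₀ hδ.le h1.le K
        _ ≤ ‖qs (φ n)‖ ^ k (φ n) := pow_le_pow_of_le_one (norm_nonneg _) (hq1 _) hlt.le
    have h6 : (K : ℝ) + 1 ≤ (‖q‖ / 2) ^ K * ‖zs (φ n)‖ := by
      have h7 : ((K : ℝ) + 1) / (‖q‖ / 2) ^ K ≤ ‖zs (φ n)‖ := h2.trans h3
      rw [div_le_iff₀ (by positivity)] at h7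
      linarith
    have h8 : (‖q‖ / 2) ^ K * ‖zs (φ n)‖ ≤ ‖qs (φ n)‖ ^ k (φ n) * ‖zs (φ n)‖ :=
      mul_le_mul_of_nonneg_right h5 (norm_nonneg _)
    have h9 : ((k (φ n) : ℕ) : ℝ) < K := by exact_mod_cast hlt
    linarith
  have huv' : u' * v' = q := by
    have h1 : Tendsto (fun n => u (φ n) * v (φ n)) atTop (𝓝 (u' * v')) := hulim.mul hvlim
    have h2 : Tendsto (fun n => u (φ n) * v (φ n)) atTop (𝓝 q) := by
      by_cases hq : q = 0
      · subst hq
        have h3 : Tendsto (fun n => qs (φ n)) atTop (𝓝 0) := hqlim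
        rw [tendsto_zero_iff_norm_tendsto_zero] at h3 ⊢
        refine squeeze_zero (fun n => norm_nonneg _) (fun n => ?_) h3
        rw [huv, norm_mul]
        refine mul_le_of_le_one_right (norm_nonneg _) ?_
        have e1 : ‖(k (φ n) : ℂ) + 1‖ = (k (φ n) : ℝ) + 1 := by
          rw [← Nat.cast_succ, Complex.norm_natCast]; push_cast; ring
        rw [norm_div, e1, Complex.norm_natCast, div_le_one (hkR _)]
        linarith
      · have h3 : Tendsto (fun n => ((α (k (φ n)) 0 : ℝ) : ℂ)) atTop (𝓝 1) := by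
          simp [α]
        have h4 : Tendsto (fun n : ℕ => (n : ℂ) / ((n : ℂ) + 1)) atTop (𝓝 1) := by
          have h5 : Tendsto (fun n : ℕ => (((n : ℝ) / ((n : ℝ) + 1) : ℝ) : ℂ)) atTop
              (𝓝 ((1 : ℝ) : ℂ)) :=
            (Complex.continuous_ofReal.tendsto 1).comp (tendsto_natCast_div_add_atTop 1)
          simpa using h5
        have h5 := hqlim.mul (h4.comp (hkinf hq))
        rw [mul_one] at h5
        exact h5.congr fun n => (huv (φ n)).symm
    exact tendsto_nhds_unique h1 h2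
  have eqs := fun n => normalised (hqne (φ n)) (hq1 (φ n)) (hzne (φ n)) (hF (φ n)) (hF' (φ n))
    (k := k (φ n))
  simp only [← hu, ← hv] at eqs
  have lim1 : ∀ w : ℕ → ℂ, (∀ j, ‖w j‖ ≤ (j : ℝ) + 1) →
      Tendsto (fun n => ∑' j : ℕ, w j * (qs (φ n) ^ (j * (j + 1) / 2) * u (φ n) ^ (j + 1) *
      (α (k (φ n)) (j + 1) : ℂ))) atTop
      (𝓝 (∑' j : ℕ, w j * (q ^ (j * (j + 1) / 2) * u' ^ (j + 1)))) := by
    intro w hw
    exact tannery hr (fun n => hqr (φ n)) (fun n => hu1 (φ n)) hqlim hulim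
      (γ := fun n j => α (k (φ n)) (j + 1)) (fun n j => α_mem _ _) (fun n => α_one _)
      (fun hq j => (α_tendsto (j + 1)).comp (hkinf hq)) hw
  have lim2 : ∀ w : ℕ → ℂ, (∀ j, ‖w j‖ ≤ (j : ℝ) + 1) →
      Tendsto (fun n => ∑' j : ℕ, w j * (qs (φ n) ^ (j * (j + 1) / 2) * v (φ n) ^ (j + 1) *
      (β (k (φ n)) (j + 1) : ℂ))) atTop
      (𝓝 (∑' j : ℕ, w j * (q ^ (j * (j + 1) / 2) * v' ^ (j + 1)))) := by
    intro w hw
    exact tannery hr (fun n => hqr (φ n)) (fun n => hv1 (φ n)) hqlim hvlim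
      (γ := fun n j => β (k (φ n)) (j + 1)) (fun n j => β_mem _ _) (fun n => β_one (hk0 _))
      (fun hq j => (β_tendsto (j + 1)).comp (hkinf hq)) hw
  have hA : TA q u' v' = 0 := by
    have h1 := lim1 (fun _ => 1) (fun j => by rw [norm_one]; linarith [(Nat.cast_nonneg j : (0 : ℝ) ≤ j)])
    have h2 := lim2 (fun _ => 1) (fun j => by rw [norm_one]; linarith [(Nat.cast_nonneg j : (0 : ℝ) ≤ j)])
    simp only [one_mul] at h1 h2
    have h3 := (h1.const_add 1).add h2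
    have h4 : Tendsto (fun _ : ℕ => (0 : ℂ)) atTop (𝓝 (TA q u' v')) := by
      refine h3.congr fun n => ?_
      exact (eqs n).1
    exact (tendsto_nhds_unique h4 tendsto_const_nhds)
  have hB : TB q u' v' = 0 := by
    have hw : ∀ j : ℕ, ‖(j : ℂ) + 1‖ ≤ (j : ℝ) + 1 := fun j => by
      rw [← Nat.cast_succ, Complex.norm_natCast]; push_cast; exact le_rfl
    have h1 := lim1 (fun j => (j : ℂ) + 1) hw
    have h2 := lim2 (fun j => (j : ℂ) + 1) hw
    have h3 := h1.sub h2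
    have h4 : Tendsto (fun _ : ℕ => (0 : ℂ)) atTop (𝓝 (TB q u' v')) := by
      refine h3.congr fun n => ?_
      exact (eqs n).2
    exact (tendsto_nhds_unique h4 tendsto_const_nhds)
  exact theta_simple (lt_of_le_of_lt hqr' hr) huv' hu1' hv1' hA hB

end SokalF
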