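import Pool.Agent.Lib_MP_af4de1.Heat

/-!
# Multiple zeros are isolated, up to the boundary `|q| = 1`
-/

namespace SokalF

open Filter Topology

theorem h_continuous (n : ℕ) : Continuous fun p : ℂ × ℂ => h n p.1 p.2 := by
  induction n using Nat.strong_induction_on with
  | _ n ih =>
  match n, ih with
  | 0, _ => exact continuous_const
  | 1, _ => exact continuous_fst
  | (n + 2), ih =>
    simp only [h]
    exact (continuous_fst.mul (ih (n + 1) (by omega))).add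
      ((continuous_const.mul continuous_snd).mul (ih n (by omega)))

theorem h_sigma_zero (n : ℕ) (ξ : ℂ) : h n ξ 0 = ξ ^ n := by
  induction n using Nat.strong_induction_on with
  | _ n ih =>
  match n, ih with
  | 0, _ => simp [h]
  | 1, _ => simp [h]
  | (n + 2), ih =>
    simp only [h]
    rw [ih (n + 1) (by omega)]
    ring

theorem h_no_common_zero (n : ℕ) {ξ σ : ℂ} (h0 : h n ξ σ = 0) (h1 : h (n + 1) ξ σ = 0) :
    ξ = 0 ∧ σ = 0 := by
  induction n with
  | zero => simp [h] at h0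
  | succ n ih =>
    simp only [h] at h1
    rw [h0, mul_zero, zero_add, mul_eq_zero, mul_eq_zero] at h1
    rcases h1 with (h1 | h1) | h1
    · exact absurd h1 (by exact_mod_cast Nat.succ_ne_zero n)
    · subst h1
      rw [h_sigma_zero] at h0
      exact ⟨pow_eq_zero_iff (Nat.succ_ne_zero n) |>.1 h0, rfl⟩
    · exact ih h1 h0

/-- The Taylor expansion of `G 0` in `x`. -/
theorem G_taylor {x τ : ℂ} (hτ : τ.re ≤ 0) (hM : ∀ p, G p x τ = 0) (Y : ℝ) :
    G 0 (x - Y) τ = 0 := by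
  set f : ℕ → ℕ → ℂ := fun k n => (k : ℂ) ^ n * Complex.exp (k * x + k ^ 2 * τ / 2) /
    (Nat.factorial k : ℂ) * ((-(Y : ℂ)) ^ n / (Nat.factorial n : ℂ)) with hf
  have hnorm : ∀ k n, ‖f k n‖ ≤ Real.exp (k * x.re) / (Nat.factorial k : ℝ) *
      ((k * |Y|) ^ n / (Nat.factorial n : ℝ)) := by
    intro k n
    have h1 := norm_Gterm_le n hτ (le_refl x.re) k
    rw [hf]
    simp only
    rw [norm_mul, norm_div _ (Nat.factorial n : ℂ), norm_pow, norm_neg, Complex.norm_real,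
      Real.norm_eq_abs, Complex.norm_natCast]
    refine (mul_le_mul_of_nonneg_right h1 (by positivity)).trans (le_of_eq ?_)
    rw [mul_pow]
    ring
  have hb : ∀ k : ℕ, HasSum (fun n : ℕ => Real.exp (k * x.re) / (Nat.factorial k : ℝ) *
      ((k * |Y|) ^ n / (Nat.factorial n : ℝ)))
      (Real.exp (k * x.re) / (Nat.factorial k : ℝ) * Real.exp (k * |Y|)) := by
    intro k
    have := (NormedSpace.expSeries_div_hasSum_exp (k * |Y|))
    rw [← Real.exp_eq_exp_ℝ] at this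
    exact this.mul_left _
  have hsum : Summable (Function.uncurry f) := by
    refine Summable.of_norm_bounded (g := fun p : ℕ × ℕ => Real.exp (p.1 * x.re) /
      (Nat.factorial p.1 : ℝ) * ((p.1 * |Y|) ^ p.2 / (Nat.factorial p.2 : ℝ))) ?_
      (fun p => hnorm p.1 p.2)
    rw [summable_prod_of_nonneg (fun p => by positivity)]
    refine ⟨fun k => (hb k).summable, ?_⟩
    refine (summable_bound 0 (x.re + |Y|)).congr fun k => ?_
    rw [(hb k).tsum_eq, pow_zero, one_mul, mul_add, Real.exp_add]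
    ring
  have h1 : ∀ k : ℕ, ∑' n, f k n = (k : ℂ) ^ 0 *
      Complex.exp (k * (x - Y) + k ^ 2 * τ / 2) / (Nat.factorial k : ℂ) := by
    intro k
    have h2 : HasSum (fun n : ℕ => ((-(k * (Y : ℂ))) ^ n / (Nat.factorial n : ℂ)))
        (Complex.exp (-(k * (Y : ℂ)))) := by
      have := (NormedSpace.expSeries_div_hasSum_exp (-(k * (Y : ℂ))))
      rwa [← Complex.exp_eq_exp_ℂ] at this
    have h3 := h2.mul_left (Complex.exp (k * x + k ^ 2 * τ / 2) / (Nat.factorial k : ℂ))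
    have h4 : ∀ n, f k n = Complex.exp (k * x + k ^ 2 * τ / 2) / (Nat.factorial k : ℂ) *
        ((-(k * (Y : ℂ))) ^ n / (Nat.factorial n : ℂ)) := by
      intro n
      rw [hf]
      simp only
      rw [show (-(k * (Y : ℂ))) = k * (-(Y : ℂ)) by ring, mul_pow]
      ring
    rw [tsum_congr h4, h3.tsum_eq, pow_zero, one_mul, div_mul_eq_mul_div, ← Complex.exp_add]
    congr 2
    ring
  unfold G
  rw [← tsum_congr h1, ← Summable.tsum_comm hsum]
  have h5 : ∀ n, ∑' k, f k n = 0 := by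
    intro n
    rw [hf]
    simp only
    rw [tsum_mul_right]
    have := hM n
    unfold G at this
    rw [this, zero_mul]
  rw [tsum_congr h5, tsum_zero]

theorem exists_G_ne_zero {x τ : ℂ} (hτ : τ.re ≤ 0) : ∃ p, G p x τ ≠ 0 := by
  by_contra hcon
  push Not at hcon
  have h1 : Tendsto (fun Y : ℝ => Complex.exp (x - Y + τ / 2)) atTop (𝓝 0) := by
    rw [tendsto_zero_iff_norm_tendsto_zero]
    have h2 : ∀ Y : ℝ, ‖Complex.exp (x - Y + τ / 2)‖ = Real.exp ((x + τ / 2).re - Y) := by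
      intro Y
      rw [Complex.norm_exp]
      congr 1
      simp
      ring
    simp only [h2]
    exact Real.tendsto_exp_atBot.comp (tendsto_atBot_add_const_left _ _
      tendsto_neg_atTop_atBot)
  have hq : ‖Complex.exp τ‖ ≤ 1 := by
    rw [Complex.norm_exp]
    exact Real.exp_le_one_iff.2 hτ
  have h3 := ((hasDerivAt_F hq 0).continuousAt.tendsto.comp h1)
  rw [F_zero] at h3
  have h4 : ∀ Y : ℝ, F (Complex.exp τ) (Complex.exp (x - Y + τ / 2)) = 0 := by
    intro Y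
    rw [← G_zero_eq]
    exact G_taylor hτ hcon Y
  have h5 : Tendsto (fun _ : ℝ => (0 : ℂ)) atTop (𝓝 1) := by
    refine h3.congr fun Y => ?_
    exact h4 Y
  exact one_ne_zero (tendsto_nhds_unique h5 tendsto_const_nhds)

theorem isolated {q₀ z₀ : ℂ} (hq0 : q₀ ≠ 0) (hq1 : ‖q₀‖ ≤ 1) {qn zn : ℕ → ℂ}
    (hqlim : Tendsto qn atTop (𝓝 q₀)) (hzlim : Tendsto zn atTop (𝓝 z₀))
    (hqn : ∀ n, ‖qn n‖ ≤ 1) (hne : ∀ n, (qn n, zn n) ≠ (q₀, z₀))
    (h0 : ∀ n, F (qn n) (zn n) = 0) (h1 : ∀ n, F (qn n) (qn n * zn n) = 0) : False := by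
  -- the limit point
  have hcont : ∀ {an bn : ℕ → ℂ} {a b : ℂ}, Tendsto an atTop (𝓝 a) → Tendsto bn atTop (𝓝 b) →
      (∀ n, ‖an n‖ ≤ 1) → ‖a‖ ≤ 1 → (∀ n, F (an n) (bn n) = 0) → F a b = 0 := by
    intro an bn a b ha hb hn ha1 hF
    have h2 : Tendsto (fun n => (an n, bn n)) atTop (𝓝[{p : ℂ × ℂ | ‖p.1‖ ≤ 1}] (a, b)) := by
      rw [tendsto_nhdsWithin_iff]
      exact ⟨ha.prodMk_nhds hb, Eventually.of_forall hn⟩
    have h3 := (continuousOn_F (a, b) ha1).tendsto.comp h2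
    have h4 : Tendsto (fun _ : ℕ => (0 : ℂ)) atTop (𝓝 (F a b)) :=
      h3.congr fun n => hF n
    exact tendsto_nhds_unique h4 tendsto_const_nhds |>.symm ▸ rfl
  have hF0 : F q₀ z₀ = 0 := hcont hqlim hzlim hqn hq1 h0
  have hF1 : F q₀ (q₀ * z₀) = 0 := hcont hqlim (hqlim.mul hzlim) hqn hq1 h1
  have hz0 : z₀ ≠ 0 := by
    rintro rfl
    rw [F_zero] at hF0
    exact one_ne_zero hF0
  -- logarithmic coordinates
  set τ : ℂ := Complex.log q₀ with hτdef
  set x : ℂ := Complex.log z₀ - τ / 2 with hxdef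
  have hexpτ : Complex.exp τ = q₀ := Complex.exp_log hq0
  have hexpx : Complex.exp (x + τ / 2) = z₀ := by
    rw [hxdef, sub_add_cancel, Complex.exp_log hz0]
  have hτ : τ.re ≤ 0 := by
    rw [hτdef, Complex.log_re]
    exact Real.log_nonpos (norm_nonneg _) hq1
  obtain ⟨σ, hσ⟩ : ∃ σ : ℕ → ℂ, ∀ n, σ n = Complex.log (qn n / q₀) := ⟨_, fun _ => rfl⟩
  obtain ⟨ξ, hξ⟩ : ∃ ξ : ℕ → ℂ, ∀ n, ξ n = Complex.log (zn n / z₀) - σ n / 2 :=
    ⟨_, fun _ => rfl⟩
  have hlog : ∀ {a : ℕ → ℂ} {b : ℂ}, b ≠ 0 → Tendsto a atTop (𝓝 b) →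
      Tendsto (fun n => Complex.log (a n / b)) atTop (𝓝 0) := by
    intro a b hb ha
    have h2 : Tendsto (fun n => a n / b) atTop (𝓝 1) := by
      have := ha.div_const b
      rwa [div_self hb] at this
    have h3 := (continuousAt_clog (x := 1) (by simp [Complex.slitPlane])).tendsto.comp h2
    rwa [Complex.log_one] at h3
  have hσlim : Tendsto σ atTop (𝓝 0) := (hlog hq0 hqlim).congr fun n => (hσ n).symm
  have hξlim : Tendsto ξ atTop (𝓝 0) := by
    have := (hlog hz0 hzlim).sub (hσlim.div_const 2)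
    rw [zero_div, sub_zero] at this
    exact this.congr fun n => (hξ n).symm
  obtain ⟨s, hs⟩ : ∃ s : ℕ → ℝ, ∀ n, s n = max ‖ξ n‖ (Real.sqrt ‖σ n‖) := ⟨_, fun _ => rfl⟩
  have hslim : Tendsto s atTop (𝓝 0) := by
    have h2 : Tendsto (fun n => max ‖ξ n‖ (Real.sqrt ‖σ n‖)) atTop
        (𝓝 (max ‖(0 : ℂ)‖ (Real.sqrt ‖(0 : ℂ)‖))) :=
      hξlim.norm.max ((Real.continuous_sqrt.tendsto _).comp hσlim.norm)
    rw [norm_zero, Real.sqrt_zero, max_self] at h2
    exact h2.congr fun n => (hs n).symm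
  have hqne : ∀ᶠ n in atTop, qn n ≠ 0 := hqlim.eventually_ne hq0
  have hzne : ∀ᶠ n in atTop, zn n ≠ 0 := hzlim.eventually_ne hz0
  -- the order of the zero
  obtain ⟨m, hm, hmin⟩ : ∃ m, G m x τ ≠ 0 ∧ ∀ p < m, G p x τ = 0 := by
    classical
    have hex := exists_G_ne_zero (x := x) hτ
    exact ⟨Nat.find hex, Nat.find_spec hex, fun p hp => not_not.1 (Nat.find_min hex hp)⟩
  have hG0 : G 0 x τ = 0 := by rw [G_zero_eq, hexpτ, hexpx, hF0]
  have hG1 : G 1 x τ = 0 := by rw [G_one_eq hτ, hexpτ, hexpx, hF1, mul_zero]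
  obtain ⟨l, rfl⟩ : ∃ l, m = l + 1 := by
    rcases Nat.eq_zero_or_pos m with h2 | h2
    · rw [h2] at hm; exact absurd hG0 hm
    · exact ⟨m - 1, by omega⟩
  obtain ⟨C0, hC0, hp0⟩ := path_bound hτ hmin (l + 1 + 2) le_rfl
  obtain ⟨C1, hC1, hp1⟩ := path_bound hτ hmin (l + 2) (by omega)
  -- the compact set of directions
  set P : Set (ℂ × ℂ) := {p | max ‖p.1‖ (Real.sqrt ‖p.2‖) = 1} with hP
  have hPc : IsCompact P := by
    refine (isCompact_closedBall (0 : ℂ × ℂ) 1).of_isClosed_subset ?_ ?_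
    · exact isClosed_eq (continuous_fst.norm.max
        (Real.continuous_sqrt.comp continuous_snd.norm)) continuous_const
    · intro p hp
      have hp' : max ‖p.1‖ (Real.sqrt ‖p.2‖) = 1 := hp
      rw [mem_closedBall_zero_iff, Prod.norm_def]
      apply max_le
      · rw [← hp']; exact le_max_left _ _
      · have h2 : Real.sqrt ‖p.2‖ ≤ 1 := by rw [← hp']; exact le_max_right _ _
        rw [Real.sqrt_le_iff, one_pow] at h2
        exact h2.2
  set g : ℂ × ℂ → ℝ := fun p => ‖h (l + 1) p.1 p.2‖ + ‖h l p.1 p.2‖ with hg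
  have hgc : Continuous g := (h_continuous (l + 1)).norm.add (h_continuous l).norm
  have hPne : P.Nonempty := ⟨(1, 0), by simp [hP]⟩
  obtain ⟨p₀, hp₀, hmin₀⟩ := hPc.exists_isMinOn hPne hgc.continuousOn
  have hc0 : 0 < g p₀ := by
    by_contra hcon
    have h2 : g p₀ = 0 := le_antisymm (not_lt.1 hcon) (by simp only [hg]; positivity)
    simp only [hg] at h2
    have h3 : h (l + 1) p₀.1 p₀.2 = 0 := by
      rw [← norm_eq_zero]; linarith [norm_nonneg (h (l + 1) p₀.1 p₀.2),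
        norm_nonneg (h l p₀.1 p₀.2)]
    have h4 : h l p₀.1 p₀.2 = 0 := by
      rw [← norm_eq_zero]; linarith [norm_nonneg (h (l + 1) p₀.1 p₀.2),
        norm_nonneg (h l p₀.1 p₀.2)]
    obtain ⟨h5, h6⟩ := h_no_common_zero l h4 h3
    have h7 : max ‖p₀.1‖ (Real.sqrt ‖p₀.2‖) = 1 := hp₀
    rw [h5, h6] at h7
    simp at h7
  set K : ℝ := (C0 * (Nat.factorial (l + 1) : ℝ) + C1 * (Nat.factorial l : ℝ)) /
    ‖G (l + 1) x τ‖ with hK
  have hMpos : 0 < ‖G (l + 1) x τ‖ := norm_pos_iff.2 hm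
  have key : ∀ᶠ n in atTop, g p₀ ≤ K * s n := by
    filter_upwards [hqne, hzne, hslim.eventually (gt_mem_nhds zero_lt_one)] with n hqn0 hzn0 hs1
    have hexpσ : Complex.exp (τ + σ n) = qn n := by
      rw [Complex.exp_add, hexpτ, hσ, Complex.exp_log (div_ne_zero hqn0 hq0)]
      field_simp
    have hexpξ : Complex.exp (x + ξ n + (τ + σ n) / 2) = zn n := by
      rw [show x + ξ n + (τ + σ n) / 2 = (x + τ / 2) + (ξ n + σ n / 2) by ring,
        Complex.exp_add, hexpx, hξ, sub_add_cancel, Complex.exp_log (div_ne_zero hzn0 hz0)]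
      field_simp
    have hspos : 0 < s n := by
      rw [hs]
      by_contra hcon
      push Not at hcon
      have h2 : ‖ξ n‖ ≤ 0 := (le_max_left _ _).trans hcon
      have h3 : Real.sqrt ‖σ n‖ ≤ 0 := (le_max_right _ _).trans hcon
      have h4 : ξ n = 0 := norm_le_zero_iff.1 h2
      have h5 : σ n = 0 := by
        rw [← norm_eq_zero, ← Real.sqrt_eq_zero (norm_nonneg _)]
        exact le_antisymm h3 (Real.sqrt_nonneg _)
      apply hne n
      rw [h5, add_zero, hexpτ] at hexpσ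
      rw [h4, h5, add_zero, add_zero, hexpx] at hexpξ
      rw [← hexpσ, ← hexpξ]
    have hsc : (s n : ℂ) ≠ 0 := by exact_mod_cast hspos.ne'
    set a : ℂ := ξ n / s n with ha
    set b : ℂ := σ n / (s n : ℂ) ^ 2 with hb
    have ea : (s n : ℂ) * a = ξ n := by rw [ha]; field_simp
    have eb : (s n : ℂ) ^ 2 * b = σ n := by rw [hb]; field_simp
    have hna : ‖a‖ = ‖ξ n‖ / s n := by
      rw [ha, norm_div, Complex.norm_real, Real.norm_eq_abs, abs_of_pos hspos]
    have hnb : ‖b‖ = ‖σ n‖ / s n ^ 2 := by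
      rw [hb, norm_div, norm_pow, Complex.norm_real, Real.norm_eq_abs, abs_of_pos hspos]
    have hab : (a, b) ∈ P := by
      show max ‖a‖ (Real.sqrt ‖b‖) = 1
      rw [hna, hnb, Real.sqrt_div (norm_nonneg _), Real.sqrt_sq hspos.le,
        max_div_div_right hspos.le, ← hs, div_self hspos.ne']
    have ha1 : ‖a‖ ≤ 1 := by
      have h2 : max ‖a‖ (Real.sqrt ‖b‖) = 1 := hab
      rw [← h2]; exact le_max_left _ _
    have hb1 : ‖b‖ ≤ 1 := by
      have h2 : max ‖a‖ (Real.sqrt ‖b‖) = 1 := hab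
      have h3 : Real.sqrt ‖b‖ ≤ 1 := by rw [← h2]; exact le_max_right _ _
      rw [Real.sqrt_le_iff, one_pow] at h3
      exact h3.2
    have hre : (τ + (s n : ℂ) ^ 2 * b).re ≤ 0 := by
      rw [eb]
      have h2 := hqn n
      rw [← hexpσ, Complex.norm_exp] at h2
      exact Real.exp_le_one_iff.1 h2
    have b0 := hp0 a b ha1 hb1 (s n) hspos.le hs1.le hre (s n) ⟨hspos.le, le_rfl⟩
    have b1 := hp1 a b ha1 hb1 (s n) hspos.le hs1.le hre (s n) ⟨hspos.le, le_rfl⟩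
    rw [show l + 1 + 2 - (l + 1 + 2) = 0 by omega, ea, eb, G_zero_eq, hexpσ, hexpξ, h0, zero_sub,
      norm_neg] at b0
    rw [show l + 1 + 2 - (l + 2) = 1 by omega, ea, eb, G_one_eq (by rw [← eb]; exact hre),
      hexpσ, hexpξ, h1, mul_zero, zero_sub, norm_neg] at b1
    simp only [T] at b0 b1
    rw [norm_mul, norm_div, norm_mul, norm_pow, Complex.norm_real, Real.norm_eq_abs,
      abs_of_pos hspos, Complex.norm_natCast] at b0 b1
    rw [show l + 1 + 2 - 1 = (l + 1) + 1 by omega] at b0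
    rw [show l + 2 - 1 = l + 1 by omega] at b1
    have c0 : ‖h (l + 1) a b‖ ≤ C0 * (Nat.factorial (l + 1) : ℝ) / ‖G (l + 1) x τ‖ * s n := by
      have hf : (0 : ℝ) < (Nat.factorial (l + 1) : ℝ) := by positivity
      have hsp : 0 < s n ^ (l + 1) := by positivity
      rw [div_mul_eq_mul_div, le_div_iff₀ hMpos]
      have h2 : ‖G (l + 1) x τ‖ * (‖h (l + 1) a b‖ * s n ^ (l + 1) /
          (Nat.factorial (l + 1) : ℝ)) = (‖h (l + 1) a b‖ * ‖G (l + 1) x τ‖) * s n ^ (l + 1) /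
          (Nat.factorial (l + 1) : ℝ) := by ring
      rw [h2, div_le_iff₀ hf] at b0
      have h3 : (‖h (l + 1) a b‖ * ‖G (l + 1) x τ‖) * s n ^ (l + 1) ≤
          (C0 * (Nat.factorial (l + 1) : ℝ) * s n) * s n ^ (l + 1) := by
        refine b0.trans (le_of_eq ?_)
        ring
      exact le_of_mul_le_mul_right h3 hsp
    have c1 : ‖h l a b‖ ≤ C1 * (Nat.factorial l : ℝ) / ‖G (l + 1) x τ‖ * s n := by
      have hf : (0 : ℝ) < (Nat.factorial l : ℝ) := by positivity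
      have hsp : 0 < s n ^ l := by positivity
      rw [div_mul_eq_mul_div, le_div_iff₀ hMpos]
      have h2 : ‖G (l + 1) x τ‖ * (‖h l a b‖ * s n ^ l /
          (Nat.factorial l : ℝ)) = (‖h l a b‖ * ‖G (l + 1) x τ‖) * s n ^ l /
          (Nat.factorial l : ℝ) := by ring
      rw [h2, div_le_iff₀ hf] at b1
      have h3 : (‖h l a b‖ * ‖G (l + 1) x τ‖) * s n ^ l ≤
          (C1 * (Nat.factorial l : ℝ) * s n) * s n ^ l := by
        refine b1.trans (le_of_eq ?_)
        ring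
      exact le_of_mul_le_mul_right h3 hsp
    have h4 : g p₀ ≤ g (a, b) := hmin₀ hab
    refine h4.trans ?_
    simp only [hg]
    refine (add_le_add c0 c1).trans (le_of_eq ?_)
    rw [hK]
    ring
  have h5 : Tendsto (fun n => K * s n) atTop (𝓝 (K * 0)) := hslim.const_mul K
  rw [mul_zero] at h5
  have h6 := ge_of_tendsto h5 key
  exact absurd hc0 (not_lt.2 h6)

/-- The pairs `(q, z)` with `0 < |q| ≤ 1`, `|z| ≤ R` and `z` a multiple zero of `F(.;q)`. -/
def multi (R : ℝ) : Set (ℂ × ℂ) :=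
  {p | 0 < ‖p.1‖ ∧ ‖p.1‖ ≤ 1 ∧ ‖p.2‖ ≤ R ∧ F p.1 p.2 = 0 ∧ deriv (F p.1) p.2 = 0}

theorem multi_finite (R : ℝ) : (multi R).Finite := by
  by_contra hinf
  have hinf' : (multi R).Infinite := hinf
  have hK : IsCompact (Metric.closedBall (0 : ℂ) 1 ×ˢ Metric.closedBall (0 : ℂ) R) :=
    (isCompact_closedBall _ _).prod (isCompact_closedBall _ _)
  have hsub : multi R ⊆ Metric.closedBall (0 : ℂ) 1 ×ˢ Metric.closedBall (0 : ℂ) R := by
    rintro ⟨q, z⟩ ⟨_, h2, h3, _⟩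
    exact ⟨mem_closedBall_zero_iff.2 h2, mem_closedBall_zero_iff.2 h3⟩
  obtain ⟨⟨q₀, z₀⟩, hx, hacc⟩ := hinf'.exists_accPt_of_subset_isCompact hK hsub
  rw [accPt_principal_iff_clusterPt, ← mem_closure_iff_clusterPt, mem_closure_iff_seq_limit] at hacc
  obtain ⟨u, hu, hlim⟩ := hacc
  have hq1 : ‖q₀‖ ≤ 1 := mem_closedBall_zero_iff.1 hx.1
  have hqlim : Tendsto (fun n => (u n).1) atTop (𝓝 q₀) := (continuous_fst.tendsto _).comp hlim
  have hzlim : Tendsto (fun n => (u n).2) atTop (𝓝 z₀) := (continuous_snd.tendsto _).comp hlim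
  have hn1 : ∀ n, ‖(u n).1‖ ≤ 1 := fun n => (hu n).1.2.1
  have h0 : ∀ n, F (u n).1 (u n).2 = 0 := fun n => (hu n).1.2.2.2.1
  have h1 : ∀ n, F (u n).1 ((u n).1 * (u n).2) = 0 := by
    intro n
    rw [← deriv_F (hn1 n)]
    exact (hu n).1.2.2.2.2
  have hne : ∀ n, ((u n).1, (u n).2) ≠ (q₀, z₀) := fun n => (hu n).2
  by_cases hq0 : q₀ = 0
  · subst hq0
    have h2 : Tendsto (fun n => ((u n).1, (u n).1 * (u n).2)) atTop
        (𝓝[{p : ℂ × ℂ | ‖p.1‖ ≤ 1}] ((0 : ℂ), (0 : ℂ))) := by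
      rw [tendsto_nhdsWithin_iff]
      refine ⟨?_, Eventually.of_forall hn1⟩
      have h3 := hqlim.mul hzlim
      rw [zero_mul] at h3
      exact hqlim.prodMk_nhds h3
    have h3 := (continuousOn_F ((0 : ℂ), (0 : ℂ)) hq1).tendsto.comp h2
    have h4 : Tendsto (fun _ : ℕ => (0 : ℂ)) atTop (𝓝 (F 0 0)) := h3.congr fun n => h1 n
    rw [F_zero] at h4
    exact one_ne_zero (tendsto_nhds_unique h4 tendsto_const_nhds)
  · exact isolated hq0 hq1 hqlim hzlim hn1 hne h0 h1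

end SokalF
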